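import Pool.Agent.Helper95.DFJ.Wada

/-!
# DFJ piece A4 (finiteness from one generic value)

Proof: let `b` be a basis of `V`, `R = F[T;T⁻¹]` and `M` the `R`-module with generators `e g a` (`g : G`, `a` a basis index) and
relations `e (g h) a = e g a + T^(α g) ∑_b ρ(g)_{ab} e h b`, `e t a = 0`. It is finitely generated (by the `e s a`, `s ∈ S`).
The hypothesis gives `M = (T - z₀) M` (linear functionals on `M / (T - z₀) M` are crossed homomorphisms for the twist), hence by
Nakayama a nonzero `r : R` kills `M`. Every `c ∈ Zt (seqRep ρ α) t` is an `R`-linear map `M → (ℤ → F)` (shift action), so `r` kills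
all coordinates of `c`: a linear recurrence, hence finite dimension.
-/

noncomputable section

namespace Pool.Agent.Helper95.DFJ

open Multiplicative Module
open scoped LaurentPolynomial

namespace A4aux

section shift
variable (F : Type*) [Field F]

/-- shift on sequences -/
def shiftHom : Multiplicative ℤ →* Module.End F (ℤ → F) where
  toFun n :=
    { toFun := fun f i => f (i - toAdd n)
      map_add' := fun f h => by funext i; simp
      map_smul' := fun r f => by funext i; simp }
  map_one' := by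
    refine LinearMap.ext fun f => funext fun i => ?_
    simp
  map_mul' g h := by
    refine LinearMap.ext fun f => funext fun i => ?_
    simp only [LinearMap.coe_mk, AddHom.coe_mk, Module.End.mul_apply, toAdd_mul]
    rw [sub_sub]

/-- action of Laurent polynomials on sequences -/
def act : F[T;T⁻¹] →ₐ[F] Module.End F (ℤ → F) :=
  AddMonoidAlgebra.lift F (Module.End F (ℤ → F)) ℤ (shiftHom F)

theorem act_apply (r : F[T;T⁻¹]) (f : ℤ → F) (i : ℤ) :
    act F r f i = r.coeff.sum fun n x => x * f (i - n) := by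
  rw [act, AddMonoidAlgebra.lift_apply, Finsupp.sum, Finsupp.sum, LinearMap.sum_apply,
    Finset.sum_apply]
  rfl

theorem act_C_mul_T (x : F) (n : ℤ) (f : ℤ → F) (i : ℤ) :
    act F (LaurentPolynomial.C x * LaurentPolynomial.T n) f i = x * f (i - n) := by
  rw [← LaurentPolynomial.single_eq_C_mul_T, act, AddMonoidAlgebra.lift_single]
  rfl

/-- sequences as a module over Laurent polynomials -/
def Sq : Type _ := ℤ → F

instance : AddCommGroup (Sq F) := inferInstanceAs (AddCommGroup (ℤ → F))

instance : Module F[T;T⁻¹] (Sq F) :=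
  letI : Module (Module.End F (ℤ → F)) (Sq F) := inferInstanceAs (Module (Module.End F (ℤ → F)) (ℤ → F))
  Module.compHom (Sq F) (act F).toRingHom

/-- a sequence as an element of the module -/
def sq (f : ℤ → F) : Sq F := f

theorem smul_sq (r : F[T;T⁻¹]) (f : ℤ → F) : r • sq F f = sq F (act F r f) := rfl

variable {F}

/-- a recurrence sequence with a long run of zeros is zero -/
theorem rec_zero (r : F[T;T⁻¹]) (m m' : ℤ) (hm : r.coeff m ≠ 0) (hm' : r.coeff m' ≠ 0)
    (hs : ∀ n ∈ r.coeff.support, m ≤ n ∧ n ≤ m') (f : ℤ → F) (hf : act F r f = 0)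
    (h0 : ∀ i, 0 ≤ i → i < m' - m → f i = 0) : f = 0 := by
  have hmm : m ≤ m' := (hs m (Finsupp.mem_support_iff.2 hm)).2
  have key : ∀ i, (∑ n ∈ r.coeff.support, r.coeff n * f (i - n)) = 0 := by
    intro i
    have := congrFun hf i
    rw [act_apply] at this
    exact this
  have up : ∀ k : ℕ, f k = 0 := by
    intro k
    induction k using Nat.strong_induction_on with
    | _ k ih =>
      by_cases hk : (k : ℤ) < m' - m
      · exact h0 k (by positivity) hk
      · have h1 := key (k + m)
        rw [Finset.sum_eq_single m] at h1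
        · have h2 : r.coeff m * f k = 0 := by
            rw [add_sub_cancel_right] at h1
            exact h1
          exact (mul_eq_zero.1 h2).resolve_left hm
        · intro n hn hne
          have h3 := hs n hn
          have h4 : m < n := lt_of_le_of_ne h3.1 (Ne.symm hne)
          have h5 : (0 : ℤ) ≤ k + m - n := by omega
          obtain ⟨l, hl⟩ := Int.eq_ofNat_of_zero_le h5
          rw [hl]
          have h6 : f (l : ℤ) = 0 := ih l (by omega)
          rw [h6, mul_zero]
        · intro hn
          exact absurd (Finsupp.mem_support_iff.2 hm) hn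
  have down : ∀ k : ℕ, f (-(k : ℤ)) = 0 := by
    intro k
    induction k using Nat.strong_induction_on with
    | _ k ih =>
      rcases Nat.eq_zero_or_pos k with hk0 | hk0
      · subst hk0
        simpa using up 0
      have h1 := key (-(k : ℤ) + m')
      rw [Finset.sum_eq_single m'] at h1
      · have h2 : r.coeff m' * f (-(k : ℤ)) = 0 := by
          rw [add_sub_cancel_right] at h1
          exact h1
        exact (mul_eq_zero.1 h2).resolve_left hm'
      · intro n hn hne
        have h3 := hs n hn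
        have h4 : n < m' := lt_of_le_of_ne h3.2 hne
        by_cases h5 : (0 : ℤ) ≤ -(k : ℤ) + m' - n
        · obtain ⟨l, hl⟩ := Int.eq_ofNat_of_zero_le h5
          rw [hl, up l, mul_zero]
        · have h6 : (0 : ℤ) ≤ -(-(k : ℤ) + m' - n) := by omega
          obtain ⟨l, hl⟩ := Int.eq_ofNat_of_zero_le h6
          have h7 : -(k : ℤ) + m' - n = -(l : ℤ) := by omega
          rw [h7]
          have h8 : f (-(l : ℤ)) = 0 := ih l (by omega)
          rw [h8, mul_zero]
      · intro hn
        exact absurd (Finsupp.mem_support_iff.2 hm') hn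
  funext i
  rcases Int.eq_nat_or_neg i with ⟨k, rfl | rfl⟩
  · exact up k
  · exact down k

end shift

section main
variable {F : Type*} [Field F] {V : Type*} [AddCommGroup V] [Module F V] {G : Type*} [Group G]
variable (ρ : Representation F G V) [FiniteDimensional F V] (α : G →* Multiplicative ℤ) (t : G)

/-- basis index -/
abbrev Ix (F : Type*) [Field F] (V : Type*) [AddCommGroup V] [Module F V] [FiniteDimensional F V] : Type :=
  Fin (finrank F V)

/-- matrix entries -/
def mx (g : G) (a b : Ix F V) : F := (finBasis F V).repr (ρ g (finBasis F V b)) a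

theorem repr_rho (g : G) (v : V) (a : Ix F V) :
    (finBasis F V).repr (ρ g v) a = ∑ b, mx ρ g a b * (finBasis F V).repr v b := by
  conv_lhs => rw [← (finBasis F V).sum_repr v]
  rw [map_sum, map_sum, Finsupp.finsetSum_apply]
  refine Finset.sum_congr rfl fun b _ => ?_
  rw [map_smul, map_smul, Finsupp.smul_apply, smul_eq_mul, mul_comm]
  rfl

/-- the relations -/
def rel (g h : G) (a : Ix F V) : (G × Ix F V) →₀ F[T;T⁻¹] :=
  Finsupp.single (g * h, a) 1 - Finsupp.single (g, a) 1 -
    ∑ b, (LaurentPolynomial.C (mx ρ g a b) * LaurentPolynomial.T (toAdd (α g))) • Finsupp.single (h, b) (1 : F[T;T⁻¹])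

/-- the submodule of relations -/
def Q : Submodule F[T;T⁻¹] ((G × Ix F V) →₀ F[T;T⁻¹]) :=
  Submodule.span _ ({x | ∃ g h a, x = rel ρ α g h a} ∪ {x | ∃ a, x = Finsupp.single (t, a) 1})

/-- the module -/
abbrev M : Type _ := ((G × Ix F V) →₀ F[T;T⁻¹]) ⧸ Q ρ α t

/-- generators -/
def e (g : G) (a : Ix F V) : M ρ α t := (Q ρ α t).mkQ (Finsupp.single (g, a) 1)

theorem e_mul (g h : G) (a : Ix F V) :
    e ρ α t (g * h) a = e ρ α t g a +
      ∑ b, (LaurentPolynomial.C (mx ρ g a b) * LaurentPolynomial.T (toAdd (α g))) • e ρ α t h b := by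
  have h1 : (Q ρ α t).mkQ (rel ρ α g h a) = 0 := by
    rw [Submodule.mkQ_apply, Submodule.Quotient.mk_eq_zero]
    exact Submodule.subset_span (Or.inl ⟨g, h, a, rfl⟩)
  rw [rel, map_sub, map_sub, map_sum] at h1
  simp only [map_smul] at h1
  rw [sub_sub, sub_eq_zero] at h1
  exact h1

theorem e_t (a : Ix F V) : e ρ α t t a = 0 := by
  rw [e, Submodule.mkQ_apply, Submodule.Quotient.mk_eq_zero]
  exact Submodule.subset_span (Or.inr ⟨a, rfl⟩)

theorem mx_one (a b : Ix F V) : mx ρ (1 : G) a b = if a = b then 1 else 0 := by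
  rw [mx, map_one, Module.End.one_apply, Basis.repr_self, Finsupp.single_apply]
  simp only [eq_comm]

theorem e_one (a : Ix F V) : e ρ α t 1 a = 0 := by
  have h := e_mul ρ α t 1 1 a
  rw [mul_one] at h
  have h2 : (∑ b, (LaurentPolynomial.C (mx ρ (1 : G) a b) * LaurentPolynomial.T (toAdd (α (1 : G)))) •
      e ρ α t 1 b) = e ρ α t 1 a := by
    rw [Finset.sum_eq_single a]
    · rw [mx_one, if_pos rfl]
      simp
    · intro b _ hb
      rw [mx_one, if_neg (Ne.symm hb)]
      simp
    · intro h; exact absurd (Finset.mem_univ a) h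
  rw [h2] at h
  exact left_eq_add.1 h

theorem span_e : Submodule.span F[T;T⁻¹] {x | ∃ g a, x = e ρ α t g a} = ⊤ := by
  rw [eq_top_iff]
  rintro x -
  obtain ⟨y, rfl⟩ := Submodule.mkQ_surjective _ x
  induction y using Finsupp.induction_linear with
  | zero => rw [map_zero]; exact zero_mem _
  | add f g hf hg => rw [map_add]; exact add_mem hf hg
  | single p r =>
    have : (Finsupp.single p r : (G × Ix F V) →₀ F[T;T⁻¹]) = r • Finsupp.single (p.1, p.2) 1 := by
      rw [Finsupp.smul_single, smul_eq_mul, mul_one]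
    rw [this, map_smul]
    exact Submodule.smul_mem _ _ (Submodule.subset_span ⟨p.1, p.2, rfl⟩)

theorem fg (S : Finset G) (hS : Subgroup.closure (S : Set G) = ⊤) : (⊤ : Submodule F[T;T⁻¹] (M ρ α t)).FG := by
  classical
  refine ⟨(S ×ˢ (Finset.univ : Finset (Ix F V))).image fun p => e ρ α t p.1 p.2, ?_⟩
  set N : Submodule F[T;T⁻¹] (M ρ α t) := Submodule.span F[T;T⁻¹]
    ((((S ×ˢ (Finset.univ : Finset (Ix F V))).image fun p => e ρ α t p.1 p.2 : Finset (M ρ α t)) : Set (M ρ α t))) with hN
  let K : Subgroup G :=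
    { carrier := {g | ∀ a, e ρ α t g a ∈ N}
      mul_mem' := by
        intro g h hg hh a
        rw [e_mul]
        exact add_mem (hg a) (Submodule.sum_mem _ fun b _ => Submodule.smul_mem _ _ (hh b))
      one_mem' := by
        intro a; rw [e_one]; exact zero_mem _
      inv_mem' := by
        intro g hg a
        have h := e_mul ρ α t g⁻¹ g a
        rw [inv_mul_cancel, e_one] at h
        rw [eq_neg_of_add_eq_zero_left h.symm]
        exact neg_mem (Submodule.sum_mem _ fun b _ => Submodule.smul_mem _ _ (hg b)) }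
  have hK : K = ⊤ := by
    rw [eq_top_iff, ← hS, Subgroup.closure_le]
    intro s hs a
    refine Submodule.subset_span ?_
    rw [Finset.coe_image]
    exact ⟨(s, a), by simpa using hs, rfl⟩
  rw [eq_top_iff, ← span_e ρ α t, Submodule.span_le]
  rintro x ⟨g, a, rfl⟩
  have : g ∈ K := hK ▸ Subgroup.mem_top g
  exact this a

/-- evaluation at `z₀` -/
def ev (z₀ : Fˣ) : F[T;T⁻¹] →+* F := LaurentPolynomial.eval₂ (RingHom.id F) z₀

/-- the coordinates of a crossed homomorphism as a linear map on the module -/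
theorem exists_Phi (c : G → ℤ → V) (hc : c ∈ Zt (seqRep ρ α) t) :
    ∃ Φ : M ρ α t →ₗ[F[T;T⁻¹]] Sq F, ∀ g a, Φ (e ρ α t g a) = sq F fun i => (finBasis F V).repr (c g i) a := by
  let Ψ : ((G × Ix F V) →₀ F[T;T⁻¹]) →ₗ[F[T;T⁻¹]] Sq F :=
    Finsupp.linearCombination F[T;T⁻¹] fun p : G × Ix F V => sq F fun i => (finBasis F V).repr (c p.1 i) p.2
  have hΨ : ∀ g a, Ψ (Finsupp.single (g, a) 1) = sq F fun i => (finBasis F V).repr (c g i) a := by
    intro g a
    show Finsupp.linearCombination F[T;T⁻¹] _ _ = _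
    rw [Finsupp.linearCombination_single, one_smul]
  have hQ : Q ρ α t ≤ LinearMap.ker Ψ := by
    rw [Q, Submodule.span_le]
    rintro x (⟨g, h, a, rfl⟩ | ⟨a, rfl⟩)
    · show Ψ (rel ρ α g h a) = 0
      rw [rel, map_sub, map_sub, map_sum, hΨ, hΨ]
      simp only [map_smul, hΨ, smul_sq]
      refine sub_eq_zero.2 ?_
      have h1 : ∀ i, (finBasis F V).repr (c (g * h) i) a = (finBasis F V).repr (c g i) a +
          ∑ b, mx ρ g a b * (finBasis F V).repr (c h (i - toAdd (α g))) b := by
        intro i
        rw [hc.1 g h, Pi.add_apply, map_add, Finsupp.add_apply, seqRep_apply, repr_rho]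
      funext i
      show (finBasis F V).repr (c (g * h) i) a - (finBasis F V).repr (c g i) a =
        (∑ b, (act F (LaurentPolynomial.C (mx ρ g a b) * LaurentPolynomial.T (toAdd (α g)))
          (fun i => (finBasis F V).repr (c h i) b) : ℤ → F)) i
      rw [h1, add_sub_cancel_left, Finset.sum_apply]
      refine Finset.sum_congr rfl fun b _ => ?_
      rw [act_C_mul_T]
    · show Ψ (Finsupp.single (t, a) 1) = 0
      rw [hΨ, hc.2]
      funext i
      show (finBasis F V).repr (0 : V) a = 0
      rw [map_zero, Finsupp.zero_apply]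
  refine ⟨(Q ρ α t).liftQ Ψ hQ, fun g a => ?_⟩
  show (Q ρ α t).liftQ Ψ hQ ((Q ρ α t).mkQ (Finsupp.single (g, a) 1)) = _
  rw [Submodule.mkQ_apply, Submodule.liftQ_apply, hΨ]

end main

end A4aux

open A4aux

section A4
variable {F : Type*} [Field F] {V : Type*} [AddCommGroup V] [Module F V] {G : Type*} [Group G]

/-- the character `g ↦ z₀ ^ α(g)` -/
def chz (z₀ : Fˣ) (α : G →* Multiplicative ℤ) : G →* Fˣ := (zpowersHom Fˣ z₀).comp α

theorem A4aux.gen (ρ : Representation F G V) [FiniteDimensional F V] (α : G →* Multiplicative ℤ) (t : G)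
    (z₀ : Fˣ) (h : ∀ c ∈ Zt (tw (chz z₀ α) ρ) t, c = 0) :
    (⊤ : Submodule F[T;T⁻¹] (M ρ α t)) ≤ RingHom.ker (ev z₀) • (⊤ : Submodule F[T;T⁻¹] (M ρ α t)) := by
  set J : Submodule F[T;T⁻¹] (M ρ α t) := RingHom.ker (ev z₀) • (⊤ : Submodule F[T;T⁻¹] (M ρ α t)) with hJ
  have hsm : ∀ (x : F) (n : ℤ) (w : M ρ α t ⧸ J),
      (LaurentPolynomial.C x * LaurentPolynomial.T n : F[T;T⁻¹]) • w = (x * ((z₀ ^ n : Fˣ) : F)) • w := by
    intro x n w
    have h1 : (LaurentPolynomial.C x * LaurentPolynomial.T n - LaurentPolynomial.C (x * ((z₀ ^ n : Fˣ) : F)) : F[T;T⁻¹])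
        ∈ RingHom.ker (ev z₀) := by
      rw [RingHom.mem_ker, map_sub, ev, LaurentPolynomial.eval₂_C_mul_T, LaurentPolynomial.eval₂_C]
      simp
    have h2 : (LaurentPolynomial.C x * LaurentPolynomial.T n - LaurentPolynomial.C (x * ((z₀ ^ n : Fˣ) : F)) : F[T;T⁻¹]) • w
        = 0 := by
      obtain ⟨v, rfl⟩ := Submodule.mkQ_surjective _ w
      rw [← map_smul, Submodule.mkQ_apply, Submodule.Quotient.mk_eq_zero]
      exact Submodule.smul_mem_smul h1 Submodule.mem_top
    rw [sub_smul, sub_eq_zero] at h2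
    rw [h2, LaurentPolynomial.C_eq_algebraMap, algebraMap_smul]
  have key : ∀ g a, J.mkQ (e ρ α t g a) = 0 := by
    intro g a
    rw [← Module.forall_dual_apply_eq_zero_iff F]
    intro φ
    let c₀ : G → V := fun g => ∑ a, φ (J.mkQ (e ρ α t g a)) • finBasis F V a
    have hrepr : ∀ g a, (finBasis F V).repr (c₀ g) a = φ (J.mkQ (e ρ α t g a)) := by
      intro g a
      show (finBasis F V).repr (∑ a, φ (J.mkQ (e ρ α t g a)) • finBasis F V a) a = _
      rw [Basis.repr_sum_self]
    have hc₀ : c₀ ∈ Zt (tw (chz z₀ α) ρ) t := by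
      refine ⟨fun g h => ?_, ?_⟩
      · apply (finBasis F V).repr.injective
        ext a
        rw [map_add, Finsupp.add_apply, hrepr, hrepr, tw_apply, map_smul, Finsupp.smul_apply, repr_rho,
          e_mul, map_add, map_add, map_sum, map_sum]
        congr 1
        rw [Finset.smul_sum]
        refine Finset.sum_congr rfl fun b _ => ?_
        rw [map_smul, hsm, map_smul, hrepr, smul_eq_mul, smul_eq_mul]
        have : ((chz z₀ α g : Fˣ) : F) = ((z₀ ^ (toAdd (α g)) : Fˣ) : F) := by
          rw [chz, MonoidHom.comp_apply, zpowersHom_apply]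
        rw [this]; ring
      · show (∑ a, φ (J.mkQ (e ρ α t t a)) • finBasis F V a) = 0
        refine Finset.sum_eq_zero fun a _ => ?_
        rw [e_t, map_zero, map_zero, zero_smul]
    have h0 := h c₀ hc₀
    rw [← hrepr, h0, Pi.zero_apply, map_zero, Finsupp.zero_apply]
  refine (span_e ρ α t).symm.le.trans ?_
  rw [Submodule.span_le]
  rintro x ⟨g, a, rfl⟩
  have := key g a
  rw [Submodule.mkQ_apply, Submodule.Quotient.mk_eq_zero] at this
  exact this

/-- if some twist by `z₀ ^ α` has no crossed homomorphism vanishing at `t`, then the sequence space is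
finite dimensional -/
theorem A4 (ρ : Representation F G V) [FiniteDimensional F V] (α : G →* Multiplicative ℤ) (t : G)
    (S : Finset G) (hS : Subgroup.closure (S : Set G) = ⊤) (z₀ : Fˣ)
    (h : ∀ c ∈ Zt (tw (chz z₀ α) ρ) t, c = 0) : FiniteDimensional F (Zt (seqRep ρ α) t) := by
  obtain ⟨r, hr1, hr2⟩ := Submodule.exists_sub_one_mem_and_smul_eq_zero_of_fg_of_le_smul
    (RingHom.ker (ev z₀)) (⊤ : Submodule F[T;T⁻¹] (M ρ α t)) (fg ρ α t S hS) (gen ρ α t z₀ h)
  have hr0 : r ≠ 0 := by
    rintro rfl
    rw [RingHom.mem_ker, zero_sub, map_neg, map_one, neg_eq_zero] at hr1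
    exact one_ne_zero hr1
  have hne : r.coeff.support.Nonempty := by
    rw [Finsupp.support_nonempty_iff]
    intro h0
    exact hr0 (AddMonoidAlgebra.coeff_eq_zero.1 h0)
  set m := r.coeff.support.min' hne with hm
  set m' := r.coeff.support.max' hne with hm'
  have hseq : ∀ c ∈ Zt (seqRep ρ α) t, ∀ g a, act F r (fun i => (finBasis F V).repr (c g i) a) = 0 := by
    intro c hc g a
    obtain ⟨Φ, hΦ⟩ := exists_Phi ρ α t c hc
    have h1 : r • Φ (e ρ α t g a) = 0 := by
      rw [← map_smul, hr2 _ Submodule.mem_top, map_zero]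
    rw [hΦ, smul_sq] at h1
    exact h1
  let L : Zt (seqRep ρ α) t →ₗ[F] (S → Ix F V → Fin (m' - m).toNat → F) :=
    { toFun := fun c s a j => (finBasis F V).repr (c.1 s.1 (j : ℤ)) a
      map_add' := fun c d => by funext s a j; simp
      map_smul' := fun x c => by funext s a j; simp }
  refine FiniteDimensional.of_injective L ?_
  rw [← LinearMap.ker_eq_bot, LinearMap.ker_eq_bot']
  rintro ⟨c, hc⟩ hL
  have hz : ∀ s ∈ S, c s = 0 := by
    intro s hs
    funext i
    apply (finBasis F V).repr.injective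
    ext a
    have h2 : (fun i => (finBasis F V).repr (c s i) a) = (0 : ℤ → F) := by
      refine rec_zero r m m' ?_ ?_ ?_ _ (hseq c hc s a) ?_
      · exact Finsupp.mem_support_iff.1 (Finset.min'_mem _ _)
      · exact Finsupp.mem_support_iff.1 (Finset.max'_mem _ _)
      · intro n hn
        exact ⟨Finset.min'_le _ _ hn, Finset.le_max' _ _ hn⟩
      · intro i hi0 hi1
        have h3 : i.toNat < (m' - m).toNat := by omega
        have h4 := congrFun (congrFun (congrFun hL ⟨s, hs⟩) a) ⟨i.toNat, h3⟩
        have h5 : ((i.toNat : ℕ) : ℤ) = i := Int.toNat_of_nonneg hi0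
        have h6 : (finBasis F V).repr (c s ((i.toNat : ℕ) : ℤ)) a = 0 := h4
        rw [h5] at h6
        exact h6
    have h7 := congrFun h2 i
    rw [Pi.zero_apply, map_zero, Finsupp.zero_apply]
    exact h7
  have : c = 0 := Zc_ext hc.1 (zero_mem _) S hS fun s hs => by
    rw [hz s hs]; rfl
  exact Subtype.ext this
end A4

end Pool.Agent.Helper95.DFJ
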