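import Pool.Agent.Helper95.DFJ.St.A4
import Pool.Agent.Helper95.DFJ.Wada

/-!
# DFJ: A2, A3
-/

section

/-!
# DFJ piece A2 (cutting along the two disks)

Work in the group `Equiv.Perm (ℤ → V)`, with `aff σ g m` (file Alg: `aff_mul`, `aff_inv`, `aff_one`), `σ = seqRep ρ α`.
For `k : ℤ` and `g` with `α g = 1` put `τ k g = aff σ g (trunc F V k (z g))`.
(1) `τ k (g h) = τ k g * τ k h` for `g, h` in the kernel of `α` (`trunc` commutes with `σ g` when `α g = 1`); `τ k g⁻¹ = (τ k g)⁻¹`.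
(2) with `T = aff σ t 0`: `T * τ k g * T⁻¹ = τ (k+1) (t g t⁻¹)`, because `z (t g t⁻¹) = σ t (z g)` (as `z t = 0`) and
`σ t` shifts the index by one.
(3) `τ k g = τ (k+1) g` if `z g k = 0`.
Define `B = τ 0 b`, `C = τ 0 c`, `T`; check `Rel B C T` and use the universal property (`IsUniv`), which gives `f : G →* Perm M`;
put `e g = f g 0`. On the generators `f g` is `aff σ g _`, so `f g = aff σ g (e g)` for all `g` (closure induction), hence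
`e ∈ Zc`, `e t = 0`, `e b = trunc 0 (z b)`, `e c = trunc 0 (z c)`.
`B ^ 3 = τ 0 (b ^ 3) = 1`, `C ^ 4 = 1`.
A2a (disk D_2; hypotheses `z g 0 = 0` for `g = c, d, X6, X5`): `dW B C T = T τ0(b c b⁻¹) T⁻¹ = τ1(d) = τ0(d)` by `h8`.
`D⁻¹ B D = τ0(d⁻¹ b d)`; from `h6, h7` (and `X6 = c⁻¹ (d⁻¹ b⁻¹ d) c`) one gets `z (d⁻¹ b d) 0 = 0`, so this is `τ1(d⁻¹ b d)` and
`aW B C T = T⁻¹ τ1(d⁻¹ b d) T = τ0(a)`. So `X4 B C T = τ0(X4)`, `X5 B C T = τ0(X5) = τ1(X5)`. Left sides: `T B T⁻¹ = τ1(t b t⁻¹)`,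
`C = τ0 c = τ1 c` by `h7`; so both left sides are `τ1(...)`; right sides `T τ0(X4) T⁻¹ = τ1(t X4 t⁻¹)` and `τ1(X5)`.
A2b (disk D_1; hypotheses `z g (-1) = 0` for `g = a, b, X3, X4`): `z (t b t⁻¹) 0 = ρ(t) (z b (-1)) = 0`, so
`T B T⁻¹ = τ1(t b t⁻¹) = τ0(t b t⁻¹)`. From `h1 h2 h3` (`X3 = b⁻¹ a⁻¹ (b c b⁻¹) a b`) one gets `z (b c b⁻¹) (-1) = 0`, so
`z d 0 = 0` and `dW B C T = τ1(d) = τ0(d)`; `aW B C T = T⁻¹ τ0(d⁻¹ b d) T = τ(-1)(a) = τ0(a)` by `h1`. So `X4, X5` of `B, C, T` are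
`τ0(X4), τ0(X5)`; `T τ0(X4) T⁻¹ = τ1(t X4 t⁻¹) = τ0(t X4 t⁻¹)` by `h4`; left sides are `τ0(...)`.
-/

namespace Pool.Agent.Helper95.DFJ

open Multiplicative Module

section A2
variable {F : Type} [Field F] {V : Type} [AddCommGroup V] [Module F V] {G : Type} [Group G]

private theorem exists_of_rel {M : Type} [AddCommGroup M] [Module F M] (b c t : G)
    (hG : IsUniv b c t) (σ : Representation F G M) (mb mc : M)
    (h : Rel (aff σ b mb) (aff σ c mc) (aff σ t 0)) : ∃ e ∈ Zt σ t, e b = mb ∧ e c = mc := by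
  obtain ⟨-, hcl, huniv⟩ := hG
  obtain ⟨f, fb, fc, ft⟩ := huniv (Equiv.Perm M) _ _ _ h
  let K : Subgroup G :=
    { carrier := {g | ∃ m, f g = aff σ g m}
      mul_mem' := by
        rintro x y ⟨m, hm⟩ ⟨n, hn⟩
        exact ⟨m + σ x n, by rw [map_mul, hm, hn, aff_mul]⟩
      one_mem' := ⟨0, by rw [map_one, aff_one]⟩
      inv_mem' := by
        rintro x ⟨m, hm⟩
        exact ⟨-(σ x⁻¹ m), by rw [map_inv, hm, aff_inv]⟩ }
  have hK : K = ⊤ := by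
    rw [eq_top_iff, ← hcl, Subgroup.closure_le]
    rintro x (rfl | rfl | rfl)
    · exact ⟨mb, fb⟩
    · exact ⟨mc, fc⟩
    · exact ⟨0, ft⟩
  have key : ∀ g, f g = aff σ g (f g 0) := by
    intro g
    obtain ⟨m, hm⟩ : g ∈ K := hK ▸ Subgroup.mem_top g
    have : f g 0 = m := by rw [hm, aff_apply, map_zero, zero_add]
    rw [this]
    exact hm
  refine ⟨fun g => f g 0, ⟨?_, ?_⟩, ?_, ?_⟩
  · intro g g'
    show f (g * g') 0 = f g 0 + σ g (f g' 0)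
    have h1 : f (g * g') 0 = f g (f g' 0) := by rw [map_mul]; rfl
    have h2 : ∀ m, f g m = σ g m + f g 0 := fun m => by
      conv_lhs => rw [key g]
      rfl
    rw [h1, h2, add_comm]
  · show f t 0 = 0
    rw [ft, aff_apply, map_zero, zero_add]
  · show f b 0 = mb
    rw [fb, aff_apply, map_zero, zero_add]
  · show f c 0 = mc
    rw [fc, aff_apply, map_zero, zero_add]

private theorem trunc_comm (ρ : Representation F G V) (α : G →* Multiplicative ℤ) (k : ℤ) {g : G}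
    (hg : α g = 1) (f : ℤ → V) :
    trunc F V k (seqRep ρ α g f) = seqRep ρ α g (trunc F V k f) := by
  funext i
  show (if k ≤ i then ρ g (f (i - toAdd (α g))) else 0) =
    ρ g (if k ≤ i - toAdd (α g) then f (i - toAdd (α g)) else 0)
  rw [hg, toAdd_one, sub_zero]
  split_ifs
  · rfl
  · rw [map_zero]

private theorem trunc_shift (ρ : Representation F G V) (α : G →* Multiplicative ℤ) (k : ℤ) {t : G}
    (ht : α t = ofAdd 1) (f : ℤ → V) :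
    trunc F V (k + 1) (seqRep ρ α t f) = seqRep ρ α t (trunc F V k f) := by
  funext i
  show (if k + 1 ≤ i then ρ t (f (i - toAdd (α t))) else 0) =
    ρ t (if k ≤ i - toAdd (α t) then f (i - toAdd (α t)) else 0)
  rw [ht, toAdd_ofAdd]
  by_cases h : k + 1 ≤ i
  · rw [if_pos h, if_pos (by omega)]
  · rw [if_neg h, if_neg (by omega), map_zero]

private theorem trunc_succ (k : ℤ) {f : ℤ → V} (hf : f k = 0) :
    trunc F V k f = trunc F V (k + 1) f := by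
  funext i
  show (if k ≤ i then f i else 0) = if k + 1 ≤ i then f i else 0
  rcases lt_trichotomy i k with h | h | h
  · rw [if_neg (by omega), if_neg (by omega)]
  · rw [h, if_pos le_rfl, if_neg (by omega), hf]
  · rw [if_pos (by omega), if_pos (by omega)]

/-- the homomorphism `τ k` on the kernel of `α` -/
private noncomputable def tau (ρ : Representation F G V) (α : G →* Multiplicative ℤ)
    (z : G → ℤ → V) (hz : z ∈ Zc (seqRep ρ α)) (k : ℤ) : α.ker →* Equiv.Perm (ℤ → V) where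
  toFun g := aff (seqRep ρ α) g (trunc F V k (z g))
  map_one' := by
    show aff (seqRep ρ α) ((1 : α.ker) : G) (trunc F V k (z ((1 : α.ker) : G))) = 1
    rw [Subgroup.coe_one, Zc_one hz, map_zero, aff_one]
  map_mul' g h := by
    show aff (seqRep ρ α) ((g * h : α.ker) : G) (trunc F V k (z ((g * h : α.ker) : G))) = _
    rw [Subgroup.coe_mul, hz, map_add, trunc_comm ρ α k (MonoidHom.mem_ker.1 g.2), aff_mul]

private theorem z_conj {ρ : Representation F G V} {α : G →* Multiplicative ℤ} {t : G}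
    {z : G → ℤ → V} (hz : z ∈ Zt (seqRep ρ α) t) (g : G) :
    z (t * g * t⁻¹) = seqRep ρ α t (z g) := by
  have h1 : z t⁻¹ = 0 := by rw [Zc_inv hz.1, hz.2, map_zero, neg_zero]
  rw [hz.1, hz.1, hz.2, h1, map_zero, add_zero, zero_add]

/-- the subgroup of the kernel of `α` where `z g k = 0` -/
private def Kz (ρ : Representation F G V) (α : G →* Multiplicative ℤ)
    (z : G → ℤ → V) (hz : z ∈ Zc (seqRep ρ α)) (k : ℤ) : Subgroup α.ker where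
  carrier := {g | z g k = 0}
  mul_mem' := by
    intro g h hg hh
    show z ((g * h : α.ker) : G) k = 0
    have hg1 : α (g : G) = 1 := MonoidHom.mem_ker.1 g.2
    rw [Subgroup.coe_mul, hz, Pi.add_apply, seqRep_apply, hg1, toAdd_one, sub_zero,
      show z g k = 0 from hg, show z h k = 0 from hh, map_zero, add_zero]
  one_mem' := by
    show z ((1 : α.ker) : G) k = 0
    rw [Subgroup.coe_one, Zc_one hz]; rfl
  inv_mem' := by
    intro g hg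
    show z ((g⁻¹ : α.ker) : G) k = 0
    have hg1 : α ((g : G)⁻¹) = 1 := by rw [map_inv, MonoidHom.mem_ker.1 g.2, inv_one]
    rw [Subgroup.coe_inv, Zc_inv hz, Pi.neg_apply, seqRep_apply, hg1, toAdd_one, sub_zero,
      show z g k = 0 from hg, map_zero, neg_zero]

private theorem tau_succ {ρ : Representation F G V} {α : G →* Multiplicative ℤ}
    {z : G → ℤ → V} (hz : z ∈ Zc (seqRep ρ α)) (k : ℤ) {g : α.ker} (hg : g ∈ Kz ρ α z hz k) :
    tau ρ α z hz k g = tau ρ α z hz (k + 1) g := by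
  show aff _ _ (trunc F V k (z g)) = aff _ _ (trunc F V (k + 1) (z g))
  rw [trunc_succ k (show z g k = 0 from hg)]

/-- conjugation by `t` on the kernel of `α` -/
private def cj (α : G →* Multiplicative ℤ) (t : G) : α.ker →* α.ker where
  toFun g := ⟨t * g * t⁻¹, by
    rw [MonoidHom.mem_ker, map_mul, map_mul, MonoidHom.mem_ker.1 g.2, mul_one, map_inv,
      mul_inv_cancel]⟩
  map_one' := by
    apply Subtype.ext
    show t * ((1 : α.ker) : G) * t⁻¹ = 1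
    rw [Subgroup.coe_one]; group
  map_mul' g h := by
    apply Subtype.ext
    show t * ((g * h : α.ker) : G) * t⁻¹ = (t * g * t⁻¹) * (t * h * t⁻¹)
    rw [Subgroup.coe_mul]; group

private theorem tau_cj {ρ : Representation F G V} {α : G →* Multiplicative ℤ} {t : G}
    (ht : α t = ofAdd 1) {z : G → ℤ → V} (hz : z ∈ Zt (seqRep ρ α) t) (k : ℤ) (g : α.ker) :
    aff (seqRep ρ α) t 0 * tau ρ α z hz.1 k g * (aff (seqRep ρ α) t 0)⁻¹ =
      tau ρ α z hz.1 (k + 1) (cj α t g) := by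
  show aff (seqRep ρ α) t 0 * aff (seqRep ρ α) g (trunc F V k (z g)) *
    (aff (seqRep ρ α) t 0)⁻¹ = aff (seqRep ρ α) (t * g * t⁻¹) (trunc F V (k + 1) (z (t * g * t⁻¹)))
  rw [aff_mul, aff_inv, aff_mul, z_conj hz, trunc_shift ρ α k ht]
  simp

private theorem cj_mem {ρ : Representation F G V} {α : G →* Multiplicative ℤ} {t : G}
    (ht : α t = ofAdd 1) {z : G → ℤ → V} (hz : z ∈ Zt (seqRep ρ α) t) (k : ℤ) {g : α.ker}
    (hg : g ∈ Kz ρ α z hz.1 k) : cj α t g ∈ Kz ρ α z hz.1 (k + 1) := by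
  show z (t * g * t⁻¹) (k + 1) = 0
  rw [z_conj hz, seqRep_apply, ht, toAdd_ofAdd, add_sub_cancel_right, show z g k = 0 from hg,
    map_zero]

/-- cutting along the disk `D_2` -/
theorem A2a (b c t : G) (hG : IsUniv b c t) (ρ : Representation F G V) (α : G →* Multiplicative ℤ)
    (hb : α b = 1) (hc : α c = 1) (ht : α t = ofAdd 1)
    (z : G → ℤ → V) (hz : z ∈ Zt (seqRep ρ α) t)
    (h7 : z c 0 = 0) (h8 : z (dW b c t) 0 = 0) (h6 : z (X6 b c t) 0 = 0) (h5 : z (X5 b c t) 0 = 0) :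
    ∃ e ∈ Zt (seqRep ρ α) t, e b = trunc F V 0 (z b) ∧ e c = trunc F V 0 (z c) := by
  apply exists_of_rel b c t hG
  obtain ⟨⟨r1, r2, r3, r4⟩, -, -⟩ := hG
  obtain ⟨β, hβ⟩ : ∃ β : α.ker, (β : G) = b := ⟨⟨b, hb⟩, rfl⟩
  obtain ⟨γ, hγ⟩ : ∃ γ : α.ker, (γ : G) = c := ⟨⟨c, hc⟩, rfl⟩
  have hd : α (dW b c t) = 1 := by
    unfold dW; simp [hb, hc]
  obtain ⟨δ, hδ⟩ : ∃ δ : α.ker, (δ : G) = dW b c t := ⟨⟨_, hd⟩, rfl⟩
  have ha : α (aW b c t) = 1 := by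
    unfold aW; simp [hb, hd]
  obtain ⟨ε, hε⟩ : ∃ ε : α.ker, (ε : G) = aW b c t := ⟨⟨_, ha⟩, rfl⟩
  have eδ : δ = cj α t (β * γ * β⁻¹) := by
    apply Subtype.ext
    show (δ : G) = t * ((β * γ * β⁻¹ : α.ker) : G) * t⁻¹
    rw [hδ]
    simp only [Subgroup.coe_mul, Subgroup.coe_inv, hβ, hγ, dW, mul_assoc]
  have eε : cj α t ε = δ⁻¹ * β * δ := by
    apply Subtype.ext
    show t * (ε : G) * t⁻¹ = _
    simp only [Subgroup.coe_mul, Subgroup.coe_inv, hβ, hδ, hε, aW]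
    group
  have h7' : γ ∈ Kz ρ α z hz.1 0 := by
    show z (γ : G) 0 = 0
    rw [hγ]; exact h7
  have h8' : δ ∈ Kz ρ α z hz.1 0 := by
    show z (δ : G) 0 = 0
    rw [hδ]; exact h8
  have h6' : γ⁻¹ * δ⁻¹ * β⁻¹ * δ * γ ∈ Kz ρ α z hz.1 0 := by
    show z ((γ⁻¹ * δ⁻¹ * β⁻¹ * δ * γ : α.ker) : G) 0 = 0
    simp only [Subgroup.coe_mul, Subgroup.coe_inv, hβ, hδ, hγ]
    exact h6
  have h5' : γ⁻¹ * δ⁻¹ * γ * β⁻¹ * ε * β * γ⁻¹ * δ * γ * β⁻¹ * ε⁻¹ * β * γ⁻¹ * δ * γ ∈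
      Kz ρ α z hz.1 0 := by
    show z ((γ⁻¹ * δ⁻¹ * γ * β⁻¹ * ε * β * γ⁻¹ * δ * γ * β⁻¹ * ε⁻¹ * β * γ⁻¹ * δ * γ : α.ker) : G)
      0 = 0
    simp only [Subgroup.coe_mul, Subgroup.coe_inv, hβ, hδ, hγ, hε]
    exact h5
  have hbd : δ⁻¹ * β * δ ∈ Kz ρ α z hz.1 0 := by
    have : δ⁻¹ * β * δ = (γ * (γ⁻¹ * δ⁻¹ * β⁻¹ * δ * γ) * γ⁻¹)⁻¹ := by group
    rw [this]
    exact inv_mem (mul_mem (mul_mem h7' h6') (inv_mem h7'))
  -- the relations in the kernel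
  have R1 : β ^ 3 = 1 := by
    apply Subtype.ext
    rw [Subgroup.coe_pow, hβ, r1]; rfl
  have R2 : γ ^ 4 = 1 := by
    apply Subtype.ext
    rw [Subgroup.coe_pow, hγ, r2]; rfl
  have R3 : γ⁻¹ * (cj α t β)⁻¹ * γ =
      cj α t (γ⁻¹ * δ⁻¹ * γ * β⁻¹ * ε⁻¹ * β * γ⁻¹ * δ * γ) := by
    apply Subtype.ext
    show _ = t * ((γ⁻¹ * δ⁻¹ * γ * β⁻¹ * ε⁻¹ * β * γ⁻¹ * δ * γ : α.ker) : G) * t⁻¹
    simp only [Subgroup.coe_mul, Subgroup.coe_inv, hβ, hδ, hγ, hε]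
    rw [X4] at r3
    rw [← r3]
    show c⁻¹ * (t * (β : G) * t⁻¹)⁻¹ * c = _
    rw [hβ]
    group
  have R4 : γ⁻¹ * cj α t β * γ * (cj α t β)⁻¹ * γ =
      γ⁻¹ * δ⁻¹ * γ * β⁻¹ * ε * β * γ⁻¹ * δ * γ * β⁻¹ * ε⁻¹ * β * γ⁻¹ * δ * γ := by
    apply Subtype.ext
    simp only [Subgroup.coe_mul, Subgroup.coe_inv, hβ, hδ, hγ, hε]
    rw [X5] at r4
    rw [← r4]
    show c⁻¹ * (t * (β : G) * t⁻¹) * c * (t * (β : G) * t⁻¹)⁻¹ * c = _
    rw [hβ]
    group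
  -- the permutations
  have eB : aff (seqRep ρ α) b (trunc F V 0 (z b)) = tau ρ α z hz.1 0 β := by
    show _ = aff (seqRep ρ α) β (trunc F V 0 (z β))
    rw [hβ]
  have eC : aff (seqRep ρ α) c (trunc F V 0 (z c)) = tau ρ α z hz.1 0 γ := by
    show _ = aff (seqRep ρ α) γ (trunc F V 0 (z γ))
    rw [hγ]
  obtain ⟨T, hT⟩ : ∃ T, T = aff (seqRep ρ α) t 0 := ⟨_, rfl⟩
  have hcj : ∀ k g, T * tau ρ α z hz.1 k g * T⁻¹ = tau ρ α z hz.1 (k + 1) (cj α t g) := by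
    intro k g
    rw [hT]
    exact tau_cj ht hz k g
  rw [eB, eC, ← hT]
  have eD : dW (tau ρ α z hz.1 0 β) (tau ρ α z hz.1 0 γ) T = tau ρ α z hz.1 0 δ := by
    have : dW (tau ρ α z hz.1 0 β) (tau ρ α z hz.1 0 γ) T =
        T * tau ρ α z hz.1 0 (β * γ * β⁻¹) * T⁻¹ := by
      simp only [map_mul, map_inv, dW, mul_assoc]
    rw [this, hcj, ← eδ, ← tau_succ hz.1 0 h8']
  have eA : aW (tau ρ α z hz.1 0 β) (tau ρ α z hz.1 0 γ) T = tau ρ α z hz.1 0 ε := by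
    have h1 : T * tau ρ α z hz.1 0 ε * T⁻¹ = tau ρ α z hz.1 0 (δ⁻¹ * β * δ) := by
      rw [hcj, eε, ← tau_succ hz.1 0 hbd]
    rw [aW, eD, ← map_inv, ← map_mul, ← map_mul, ← h1]
    group
  have eTB : T * tau ρ α z hz.1 0 β * T⁻¹ = tau ρ α z hz.1 (0 + 1) (cj α t β) := hcj 0 β
  have eTB' : T * (tau ρ α z hz.1 0 β)⁻¹ * T⁻¹ = tau ρ α z hz.1 (0 + 1) (cj α t β)⁻¹ := by
    rw [map_inv, ← eTB]; group
  have eC1 : tau ρ α z hz.1 0 γ = tau ρ α z hz.1 (0 + 1) γ := tau_succ hz.1 0 h7'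
  have e4 : X4 (tau ρ α z hz.1 0 β) (tau ρ α z hz.1 0 γ) T =
      tau ρ α z hz.1 0 (γ⁻¹ * δ⁻¹ * γ * β⁻¹ * ε⁻¹ * β * γ⁻¹ * δ * γ) := by
    rw [X4, eD, eA]
    simp only [map_mul, map_inv]
  have e5 : X5 (tau ρ α z hz.1 0 β) (tau ρ α z hz.1 0 γ) T =
      tau ρ α z hz.1 0
        (γ⁻¹ * δ⁻¹ * γ * β⁻¹ * ε * β * γ⁻¹ * δ * γ * β⁻¹ * ε⁻¹ * β * γ⁻¹ * δ * γ) := by
    rw [X5, eD, eA]
    simp only [map_mul, map_inv]
  refine ⟨?_, ?_, ?_, ?_⟩
  · rw [← map_pow, R1, map_one]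
  · rw [← map_pow, R2, map_one]
  · rw [e4, hcj, eTB', eC1, ← map_inv, ← map_mul, ← map_mul, R3]
  · rw [e5, tau_succ hz.1 0 h5', eTB', eTB, eC1, ← map_inv, ← map_mul, ← map_mul, ← map_mul,
      ← map_mul, R4]

/-- cutting along the disk `D_1` -/
theorem A2b (b c t : G) (hG : IsUniv b c t) (ρ : Representation F G V) (α : G →* Multiplicative ℤ)
    (hb : α b = 1) (hc : α c = 1) (ht : α t = ofAdd 1)
    (z : G → ℤ → V) (hz : z ∈ Zt (seqRep ρ α) t)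
    (h1 : z (aW b c t) (-1) = 0) (h2 : z b (-1) = 0) (h3 : z (X3 b c t) (-1) = 0)
    (h4 : z (X4 b c t) (-1) = 0) :
    ∃ e ∈ Zt (seqRep ρ α) t, e b = trunc F V 0 (z b) ∧ e c = trunc F V 0 (z c) := by
  apply exists_of_rel b c t hG
  obtain ⟨⟨r1, r2, r3, r4⟩, -, -⟩ := hG
  obtain ⟨β, hβ⟩ : ∃ β : α.ker, (β : G) = b := ⟨⟨b, hb⟩, rfl⟩
  obtain ⟨γ, hγ⟩ : ∃ γ : α.ker, (γ : G) = c := ⟨⟨c, hc⟩, rfl⟩
  have hd : α (dW b c t) = 1 := by
    unfold dW; simp [hb, hc]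
  obtain ⟨δ, hδ⟩ : ∃ δ : α.ker, (δ : G) = dW b c t := ⟨⟨_, hd⟩, rfl⟩
  have ha : α (aW b c t) = 1 := by
    unfold aW; simp [hb, hd]
  obtain ⟨ε, hε⟩ : ∃ ε : α.ker, (ε : G) = aW b c t := ⟨⟨_, ha⟩, rfl⟩
  have eδ : δ = cj α t (β * γ * β⁻¹) := by
    apply Subtype.ext
    show (δ : G) = t * ((β * γ * β⁻¹ : α.ker) : G) * t⁻¹
    rw [hδ]
    simp only [Subgroup.coe_mul, Subgroup.coe_inv, hβ, hγ, dW, mul_assoc]
  have eε : cj α t ε = δ⁻¹ * β * δ := by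
    apply Subtype.ext
    show t * (ε : G) * t⁻¹ = _
    simp only [Subgroup.coe_mul, Subgroup.coe_inv, hβ, hδ, hε, aW]
    group
  have h1' : ε ∈ Kz ρ α z hz.1 (-1) := by
    show z (ε : G) (-1) = 0
    rw [hε]; exact h1
  have h2' : β ∈ Kz ρ α z hz.1 (-1) := by
    show z (β : G) (-1) = 0
    rw [hβ]; exact h2
  have h3' : β⁻¹ * ε⁻¹ * β * γ * β⁻¹ * ε * β ∈ Kz ρ α z hz.1 (-1) := by
    show z ((β⁻¹ * ε⁻¹ * β * γ * β⁻¹ * ε * β : α.ker) : G) (-1) = 0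
    simp only [Subgroup.coe_mul, Subgroup.coe_inv, hβ, hγ, hε]
    exact h3
  have h4' : γ⁻¹ * δ⁻¹ * γ * β⁻¹ * ε⁻¹ * β * γ⁻¹ * δ * γ ∈ Kz ρ α z hz.1 (-1) := by
    show z ((γ⁻¹ * δ⁻¹ * γ * β⁻¹ * ε⁻¹ * β * γ⁻¹ * δ * γ : α.ker) : G) (-1) = 0
    simp only [Subgroup.coe_mul, Subgroup.coe_inv, hβ, hδ, hγ, hε]
    exact h4
  have hbc : β * γ * β⁻¹ ∈ Kz ρ α z hz.1 (-1) := by
    have : β * γ * β⁻¹ = ε * β * (β⁻¹ * ε⁻¹ * β * γ * β⁻¹ * ε * β) * β⁻¹ * ε⁻¹ := by group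
    rw [this]
    exact mul_mem (mul_mem (mul_mem (mul_mem h1' h2') h3') (inv_mem h2')) (inv_mem h1')
  have hδ0 : δ ∈ Kz ρ α z hz.1 0 := by
    rw [eδ]
    exact cj_mem ht hz (-1) hbc
  have hβ0 : cj α t β ∈ Kz ρ α z hz.1 0 := cj_mem ht hz (-1) h2'
  have h40 : cj α t (γ⁻¹ * δ⁻¹ * γ * β⁻¹ * ε⁻¹ * β * γ⁻¹ * δ * γ) ∈ Kz ρ α z hz.1 0 :=
    cj_mem ht hz (-1) h4'
  -- the relations in the kernel
  have R1 : β ^ 3 = 1 := by
    apply Subtype.ext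
    rw [Subgroup.coe_pow, hβ, r1]; rfl
  have R2 : γ ^ 4 = 1 := by
    apply Subtype.ext
    rw [Subgroup.coe_pow, hγ, r2]; rfl
  have R3 : γ⁻¹ * (cj α t β)⁻¹ * γ =
      cj α t (γ⁻¹ * δ⁻¹ * γ * β⁻¹ * ε⁻¹ * β * γ⁻¹ * δ * γ) := by
    apply Subtype.ext
    show _ = t * ((γ⁻¹ * δ⁻¹ * γ * β⁻¹ * ε⁻¹ * β * γ⁻¹ * δ * γ : α.ker) : G) * t⁻¹
    simp only [Subgroup.coe_mul, Subgroup.coe_inv, hβ, hδ, hγ, hε]
    rw [X4] at r3
    rw [← r3]
    show c⁻¹ * (t * (β : G) * t⁻¹)⁻¹ * c = _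
    rw [hβ]
    group
  have R4 : γ⁻¹ * cj α t β * γ * (cj α t β)⁻¹ * γ =
      γ⁻¹ * δ⁻¹ * γ * β⁻¹ * ε * β * γ⁻¹ * δ * γ * β⁻¹ * ε⁻¹ * β * γ⁻¹ * δ * γ := by
    apply Subtype.ext
    simp only [Subgroup.coe_mul, Subgroup.coe_inv, hβ, hδ, hγ, hε]
    rw [X5] at r4
    rw [← r4]
    show c⁻¹ * (t * (β : G) * t⁻¹) * c * (t * (β : G) * t⁻¹)⁻¹ * c = _
    rw [hβ]
    group
  -- the permutations
  have eB : aff (seqRep ρ α) b (trunc F V 0 (z b)) = tau ρ α z hz.1 0 β := by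
    show _ = aff (seqRep ρ α) β (trunc F V 0 (z β))
    rw [hβ]
  have eC : aff (seqRep ρ α) c (trunc F V 0 (z c)) = tau ρ α z hz.1 0 γ := by
    show _ = aff (seqRep ρ α) γ (trunc F V 0 (z γ))
    rw [hγ]
  obtain ⟨T, hT⟩ : ∃ T, T = aff (seqRep ρ α) t 0 := ⟨_, rfl⟩
  have hcj : ∀ k g, T * tau ρ α z hz.1 k g * T⁻¹ = tau ρ α z hz.1 (k + 1) (cj α t g) := by
    intro k g
    rw [hT]
    exact tau_cj ht hz k g
  have hcj0 : ∀ g, cj α t g ∈ Kz ρ α z hz.1 0 →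
      T * tau ρ α z hz.1 0 g * T⁻¹ = tau ρ α z hz.1 0 (cj α t g) := by
    intro g hg
    rw [hcj, tau_succ hz.1 0 hg]
  rw [eB, eC, ← hT]
  have eD : dW (tau ρ α z hz.1 0 β) (tau ρ α z hz.1 0 γ) T = tau ρ α z hz.1 0 δ := by
    have : dW (tau ρ α z hz.1 0 β) (tau ρ α z hz.1 0 γ) T =
        T * tau ρ α z hz.1 0 (β * γ * β⁻¹) * T⁻¹ := by
      simp only [map_mul, map_inv, dW, mul_assoc]
    rw [this, hcj0 _ (by rw [← eδ]; exact hδ0), ← eδ]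
  have eA : aW (tau ρ α z hz.1 0 β) (tau ρ α z hz.1 0 γ) T = tau ρ α z hz.1 0 ε := by
    have h1 : T * tau ρ α z hz.1 (-1) ε * T⁻¹ = tau ρ α z hz.1 0 (δ⁻¹ * β * δ) := by
      rw [hcj, eε, neg_add_cancel]
    have h2 : tau ρ α z hz.1 (-1) ε = tau ρ α z hz.1 0 ε := by
      rw [tau_succ hz.1 (-1) h1', neg_add_cancel]
    rw [aW, eD, ← map_inv, ← map_mul, ← map_mul, ← h1, h2]
    group
  have eTB : T * tau ρ α z hz.1 0 β * T⁻¹ = tau ρ α z hz.1 0 (cj α t β) := hcj0 β hβ0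
  have eTB' : T * (tau ρ α z hz.1 0 β)⁻¹ * T⁻¹ = tau ρ α z hz.1 0 (cj α t β)⁻¹ := by
    rw [map_inv, ← eTB]; group
  have e4 : X4 (tau ρ α z hz.1 0 β) (tau ρ α z hz.1 0 γ) T =
      tau ρ α z hz.1 0 (γ⁻¹ * δ⁻¹ * γ * β⁻¹ * ε⁻¹ * β * γ⁻¹ * δ * γ) := by
    rw [X4, eD, eA]
    simp only [map_mul, map_inv]
  have e5 : X5 (tau ρ α z hz.1 0 β) (tau ρ α z hz.1 0 γ) T =
      tau ρ α z hz.1 0
        (γ⁻¹ * δ⁻¹ * γ * β⁻¹ * ε * β * γ⁻¹ * δ * γ * β⁻¹ * ε⁻¹ * β * γ⁻¹ * δ * γ) := by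
    rw [X5, eD, eA]
    simp only [map_mul, map_inv]
  refine ⟨?_, ?_, ?_, ?_⟩
  · rw [← map_pow, R1, map_one]
  · rw [← map_pow, R2, map_one]
  · rw [e4, hcj0 _ h40, eTB', ← map_inv, ← map_mul, ← map_mul, R3]
  · rw [e5, eTB', eTB, ← map_inv, ← map_mul, ← map_mul, ← map_mul, ← map_mul, R4]

end A2

end Pool.Agent.Helper95.DFJ

end

section

/-!
# DFJ piece A3 (the two dimension bounds)

First bound (disk D_1): the linear map `z ↦ (z a (-1), z b (-1), z X3 (-1), z X4 (-1))` on `Zt` is injective: if it vanishes,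
A2b gives `e ∈ Zt` with `e b = trunc 0 (z b)`, `e c = trunc 0 (z c)`; `e = 0` by A1 (generators `b, c, t`, bounded below by 0) and
`z - e` is bounded above on generators, so `z - e = 0` by A1'. Its values: if `g ^ 3 = 1`, `α g = 1` then
`(1 + ρ g + ρ g ^ 2) (z g i) = 0` (expand `z (g ^ 3) = 0`), and `ker (1 + ρ g + ρ g ^ 2)` has the same dimension for conjugate elements `g`
and for `g`, `g⁻¹` (`ρ g⁻¹ = ρ g ^ 2`). `a = t⁻¹ (d⁻¹ b d) t` and `b` are conjugates of `b`, `X4` is a conjugate of `a⁻¹` (and `a ^ 3 = 1`):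
`X4 = (c⁻¹ d⁻¹ c b⁻¹) a⁻¹ (c⁻¹ d⁻¹ c b⁻¹)⁻¹`; `X3` is a conjugate of `c`.
Second bound (disk D_2): `z ↦ (z c 0, z d 0, z X6 0, z X5 0)`, injective by A2a; `d = (t b) c (t b)⁻¹`, `X6` is a conjugate of `b⁻¹`,
`X5 = (c⁻¹ d⁻¹ c b⁻¹ a b) (c⁻¹ d c) (c⁻¹ d⁻¹ c b⁻¹ a b)⁻¹` is a conjugate of `c`.
-/

namespace Pool.Agent.Helper95.DFJ

open Multiplicative Module

section A3
variable {F : Type} [Field F] {V : Type} [AddCommGroup V] [Module F V] {G : Type} [Group G]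

/-- the kernel of `1 + ρ g + ρ g ^ 2` -/
def K3 (ρ : Representation F G V) (g : G) : Submodule F V := LinearMap.ker (1 + ρ g + ρ g ^ 2)

/-- the kernel of `1 + ρ g + ρ g ^ 2 + ρ g ^ 3` -/
def K4 (ρ : Representation F G V) (g : G) : Submodule F V := LinearMap.ker (1 + ρ g + ρ g ^ 2 + ρ g ^ 3)

theorem mem_K3 {ρ : Representation F G V} {g : G} {v : V} : v ∈ K3 ρ g ↔ v + ρ g v + ρ g (ρ g v) = 0 := by
  unfold K3
  rw [LinearMap.mem_ker, pow_two]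
  rfl

theorem mem_K4 {ρ : Representation F G V} {g : G} {v : V} :
    v ∈ K4 ρ g ↔ v + ρ g v + ρ g (ρ g v) + ρ g (ρ g (ρ g v)) = 0 := by
  unfold K4
  rw [LinearMap.mem_ker]
  have e2 : ρ g ^ 2 = ρ g * ρ g := pow_two _
  have e3 : ρ g ^ 3 = ρ g * (ρ g * ρ g) := by rw [pow_succ, pow_two, mul_assoc]
  rw [e2, e3]
  rfl

theorem seq_one {ρ : Representation F G V} {α : G →* Multiplicative ℤ} {g : G} (hg : α g = 1) (f : ℤ → V) (i : ℤ) :
    seqRep ρ α g f i = ρ g (f i) := by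
  rw [seqRep_apply, hg, toAdd_one, sub_zero]

theorem val3 {ρ : Representation F G V} {α : G →* Multiplicative ℤ} {z : G → ℤ → V} (hz : z ∈ Zc (seqRep ρ α))
    {g : G} (hg : α g = 1) (h3 : g ^ 3 = 1) (i : ℤ) : z g i ∈ K3 ρ g := by
  rw [mem_K3]
  have h1 : z (g * (g * g)) = 0 := by
    have : g * (g * g) = g ^ 3 := by rw [pow_succ, pow_two, mul_assoc]
    rw [this, h3, Zc_one hz]
  rw [hz, hz g g] at h1
  have h2 := congrFun h1 i
  rw [Pi.add_apply, seq_one hg, Pi.add_apply, seq_one hg, map_add] at h2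
  rw [add_assoc]
  exact h2

theorem val4 {ρ : Representation F G V} {α : G →* Multiplicative ℤ} {z : G → ℤ → V} (hz : z ∈ Zc (seqRep ρ α))
    {g : G} (hg : α g = 1) (h4 : g ^ 4 = 1) (i : ℤ) : z g i ∈ K4 ρ g := by
  rw [mem_K4]
  have h1 : z (g * (g * (g * g))) = 0 := by
    have : g * (g * (g * g)) = g ^ 4 := by simp only [pow_succ, pow_zero, one_mul, mul_assoc]
    rw [this, h4, Zc_one hz]
  rw [hz, hz g (g * g), hz g g] at h1
  have h2 := congrFun h1 i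
  rw [Pi.add_apply, seq_one hg, Pi.add_apply, seq_one hg, Pi.add_apply, seq_one hg, map_add, map_add, map_add] at h2
  rw [add_assoc, add_assoc]
  exact h2

theorem conj_apply (ρ : Representation F G V) (h g : G) (v : V) : ρ (h * g * h⁻¹) (ρ h v) = ρ h (ρ g v) := by
  rw [← Module.End.mul_apply, ← Module.End.mul_apply, ← map_mul, ← map_mul]
  congr 2
  group

theorem rho_inv_apply (ρ : Representation F G V) (h : G) (v : V) : ρ h (ρ h⁻¹ v) = v := by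
  rw [← Module.End.mul_apply, ← map_mul, mul_inv_cancel, map_one, Module.End.one_apply]

theorem rho_apply_inv (ρ : Representation F G V) (h : G) (v : V) : ρ h⁻¹ (ρ h v) = v := by
  rw [← Module.End.mul_apply, ← map_mul, inv_mul_cancel, map_one, Module.End.one_apply]

/-- `ρ h` as an equivalence -/
def rE (ρ : Representation F G V) (h : G) : V ≃ₗ[F] V where
  toFun := ρ h
  map_add' := map_add (ρ h)
  map_smul' := map_smul (ρ h)
  invFun := ρ h⁻¹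
  left_inv := rho_apply_inv ρ h
  right_inv := rho_inv_apply ρ h

theorem K3_conj [FiniteDimensional F V] (ρ : Representation F G V) (h g : G) :
    finrank F (K3 ρ (h * g * h⁻¹)) = finrank F (K3 ρ g) := by
  have e : K3 ρ (h * g * h⁻¹) = (K3 ρ g).map ((rE ρ h : V ≃ₗ[F] V) : V →ₗ[F] V) := by
    ext v
    rw [Submodule.mem_map]
    constructor
    · intro hv
      refine ⟨ρ h⁻¹ v, ?_, rho_inv_apply ρ h v⟩
      rw [mem_K3] at hv ⊢
      have h1 : v = ρ h (ρ h⁻¹ v) := (rho_inv_apply ρ h v).symm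
      set w := ρ h⁻¹ v
      rw [h1, conj_apply, conj_apply, ← map_add, ← map_add] at hv
      exact (rE ρ h).injective (hv.trans (map_zero (rE ρ h)).symm)
    · rintro ⟨w, hw, rfl⟩
      rw [mem_K3] at hw ⊢
      show ρ h w + ρ (h * g * h⁻¹) (ρ h w) + ρ (h * g * h⁻¹) (ρ (h * g * h⁻¹) (ρ h w)) = 0
      rw [conj_apply, conj_apply, ← map_add, ← map_add, hw, map_zero]
  rw [e]
  exact LinearEquiv.finrank_map_eq (rE ρ h) (K3 ρ g)

theorem K4_conj [FiniteDimensional F V] (ρ : Representation F G V) (h g : G) :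
    finrank F (K4 ρ (h * g * h⁻¹)) = finrank F (K4 ρ g) := by
  have e : K4 ρ (h * g * h⁻¹) = (K4 ρ g).map ((rE ρ h : V ≃ₗ[F] V) : V →ₗ[F] V) := by
    ext v
    rw [Submodule.mem_map]
    constructor
    · intro hv
      refine ⟨ρ h⁻¹ v, ?_, rho_inv_apply ρ h v⟩
      rw [mem_K4] at hv ⊢
      have h1 : v = ρ h (ρ h⁻¹ v) := (rho_inv_apply ρ h v).symm
      set w := ρ h⁻¹ v
      rw [h1, conj_apply, conj_apply, conj_apply, ← map_add, ← map_add, ← map_add] at hv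
      exact (rE ρ h).injective (hv.trans (map_zero (rE ρ h)).symm)
    · rintro ⟨w, hw, rfl⟩
      rw [mem_K4] at hw ⊢
      show ρ h w + ρ (h * g * h⁻¹) (ρ h w) + ρ (h * g * h⁻¹) (ρ (h * g * h⁻¹) (ρ h w)) +
        ρ (h * g * h⁻¹) (ρ (h * g * h⁻¹) (ρ (h * g * h⁻¹) (ρ h w))) = 0
      rw [conj_apply, conj_apply, conj_apply, ← map_add, ← map_add, ← map_add, hw, map_zero]
  rw [e]
  exact LinearEquiv.finrank_map_eq (rE ρ h) (K4 ρ g)

theorem K3_inv (ρ : Representation F G V) (g : G) (h3 : g ^ 3 = 1) : K3 ρ g⁻¹ = K3 ρ g := by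
  have h1 : g⁻¹ = g * g := by
    rw [inv_eq_iff_mul_eq_one, ← mul_assoc, ← pow_two, ← pow_succ, h3]
  ext v
  rw [mem_K3, mem_K3]
  have e1 : ρ g⁻¹ v = ρ g (ρ g v) := by rw [h1, map_mul]; rfl
  have e2 : ρ g⁻¹ (ρ g⁻¹ v) = ρ g v := by
    rw [← Module.End.mul_apply, ← map_mul]
    congr 2
    rw [h1]
    calc g * g * (g * g) = g ^ 3 * g := by simp only [pow_succ, pow_zero, one_mul, mul_assoc]
      _ = g := by rw [h3, one_mul]
  rw [e2, e1, add_right_comm]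

theorem conj_pow_one {g h : G} (n : ℕ) (hg : g ^ n = 1) : (h * g * h⁻¹) ^ n = 1 := by
  rw [conj_pow, hg, mul_one, mul_inv_cancel]

/-- injectivity from the cut lemma -/
theorem cut_inj {b c t : G} (hG : IsUniv b c t) (ρ : Representation F G V) (α : G →* Multiplicative ℤ)
    [FiniteDimensional F (Zt (seqRep ρ α) t)] (z : G → ℤ → V) (hz : z ∈ Zt (seqRep ρ α) t)
    (he : ∃ e ∈ Zt (seqRep ρ α) t, e b = trunc F V 0 (z b) ∧ e c = trunc F V 0 (z c)) : z = 0 := by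
  obtain ⟨e, he, heb, hec⟩ := he
  have hS := hG.2.1
  have h0 : e = 0 := by
    refine A1 ρ α t {b, c, t} hS e he 0 ?_
    intro s hs i hi
    simp only [Set.mem_insert_iff, Set.mem_singleton_iff] at hs
    rcases hs with rfl | rfl | rfl
    · rw [heb]; exact if_neg (by omega)
    · rw [hec]; exact if_neg (by omega)
    · rw [he.2]; rfl
  refine A1' ρ α t {b, c, t} hS z hz 0 ?_
  intro s hs i hi
  simp only [Set.mem_insert_iff, Set.mem_singleton_iff] at hs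
  rcases hs with rfl | rfl | rfl
  · have h1 := congrFun heb i
    rw [h0] at h1
    have h2 : trunc F V 0 (z s) i = z s i := if_pos hi
    rw [← h2, ← h1]; rfl
  · have h1 := congrFun hec i
    rw [h0] at h1
    have h2 : trunc F V 0 (z s) i = z s i := if_pos hi
    rw [← h2, ← h1]; rfl
  · rw [hz.2]; rfl

/-- dimension bound from four evaluations -/
theorem four_bound [FiniteDimensional F V] (ρ : Representation F G V) (α : G →* Multiplicative ℤ) (t : G)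
    [FiniteDimensional F (Zt (seqRep ρ α) t)] (k : ℤ) (g1 g2 g3 g4 : G) (U1 U2 U3 U4 : Submodule F V)
    (h1 : ∀ z ∈ Zt (seqRep ρ α) t, z g1 k ∈ U1) (h2 : ∀ z ∈ Zt (seqRep ρ α) t, z g2 k ∈ U2)
    (h3 : ∀ z ∈ Zt (seqRep ρ α) t, z g3 k ∈ U3) (h4 : ∀ z ∈ Zt (seqRep ρ α) t, z g4 k ∈ U4)
    (hinj : ∀ z ∈ Zt (seqRep ρ α) t, z g1 k = 0 → z g2 k = 0 → z g3 k = 0 → z g4 k = 0 → z = 0) :
    finrank F (Zt (seqRep ρ α) t) ≤ finrank F U1 + finrank F U2 + finrank F U3 + finrank F U4 := by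
  let L : Zt (seqRep ρ α) t →ₗ[F] ((U1 × U2) × U3) × U4 :=
    { toFun := fun z => (((⟨z.1 g1 k, h1 z.1 z.2⟩, ⟨z.1 g2 k, h2 z.1 z.2⟩), ⟨z.1 g3 k, h3 z.1 z.2⟩), ⟨z.1 g4 k, h4 z.1 z.2⟩)
      map_add' := fun z w => rfl
      map_smul' := fun r z => rfl }
  have hL : Function.Injective L := by
    rw [← LinearMap.ker_eq_bot, LinearMap.ker_eq_bot']
    intro z hz
    apply Subtype.ext
    refine hinj z.1 z.2 ?_ ?_ ?_ ?_
    · exact congrArg (fun p : ((U1 × U2) × U3) × U4 => (p.1.1.1 : V)) hz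
    · exact congrArg (fun p : ((U1 × U2) × U3) × U4 => (p.1.1.2 : V)) hz
    · exact congrArg (fun p : ((U1 × U2) × U3) × U4 => (p.1.2 : V)) hz
    · exact congrArg (fun p : ((U1 × U2) × U3) × U4 => (p.2 : V)) hz
  have := LinearMap.finrank_le_finrank_of_injective hL
  rw [Module.finrank_prod, Module.finrank_prod, Module.finrank_prod] at this
  exact this

/-- the two bounds -/
theorem A3 (b c t : G) (hG : IsUniv b c t) (ρ : Representation F G V) (α : G →* Multiplicative ℤ)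
    (hb : α b = 1) (hc : α c = 1) (ht : α t = ofAdd 1) [FiniteDimensional F V]
    [FiniteDimensional F (Zt (seqRep ρ α) t)] :
    finrank F (Zt (seqRep ρ α) t) ≤
      3 * finrank F (LinearMap.ker (1 + ρ b + ρ b ^ 2)) +
        finrank F (LinearMap.ker (1 + ρ c + ρ c ^ 2 + ρ c ^ 3)) ∧
    finrank F (Zt (seqRep ρ α) t) ≤
      finrank F (LinearMap.ker (1 + ρ b + ρ b ^ 2)) +
        3 * finrank F (LinearMap.ker (1 + ρ c + ρ c ^ 2 + ρ c ^ 3)) := by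
  have hb3 : b ^ 3 = 1 := hG.1.1
  have hc4 : c ^ 4 = 1 := hG.1.2.1
  have hαd : α (dW b c t) = 1 := by unfold dW; simp [hb, hc]
  have hαa : α (aW b c t) = 1 := by unfold aW; simp [hb, hαd]
  have ea : aW b c t = (t⁻¹ * (dW b c t)⁻¹) * b * (t⁻¹ * (dW b c t)⁻¹)⁻¹ := by unfold aW; group
  have ed : dW b c t = (t * b) * c * (t * b)⁻¹ := by unfold dW; group
  have a3 : (aW b c t) ^ 3 = 1 := by rw [ea]; exact conj_pow_one 3 hb3
  have d4 : (dW b c t) ^ 4 = 1 := by rw [ed]; exact conj_pow_one 4 hc4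
  have e3 : X3 b c t = (b⁻¹ * (aW b c t)⁻¹ * b) * c * (b⁻¹ * (aW b c t)⁻¹ * b)⁻¹ := by unfold X3; group
  have e4 : X4 b c t = (c⁻¹ * (dW b c t)⁻¹ * c * b⁻¹) * (aW b c t)⁻¹ * (c⁻¹ * (dW b c t)⁻¹ * c * b⁻¹)⁻¹ := by
    unfold X4; group
  have e5 : X5 b c t = (c⁻¹ * (dW b c t)⁻¹ * c * b⁻¹ * aW b c t * b) * (c⁻¹ * dW b c t * c⁻¹⁻¹) *
      (c⁻¹ * (dW b c t)⁻¹ * c * b⁻¹ * aW b c t * b)⁻¹ := by
    unfold X5; group
  have e6 : X6 b c t = (c⁻¹ * (dW b c t)⁻¹) * b⁻¹ * (c⁻¹ * (dW b c t)⁻¹)⁻¹ := by unfold X6; group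
  have bi3 : b⁻¹ ^ 3 = 1 := by rw [inv_pow, hb3, inv_one]
  have ai3 : (aW b c t)⁻¹ ^ 3 = 1 := by rw [inv_pow, a3, inv_one]
  have x3 : (X3 b c t) ^ 4 = 1 := by rw [e3]; exact conj_pow_one 4 hc4
  have x4 : (X4 b c t) ^ 3 = 1 := by rw [e4]; exact conj_pow_one 3 ai3
  have x5 : (X5 b c t) ^ 4 = 1 := by rw [e5]; exact conj_pow_one 4 (conj_pow_one 4 d4)
  have x6 : (X6 b c t) ^ 3 = 1 := by rw [e6]; exact conj_pow_one 3 bi3
  have α3 : α (X3 b c t) = 1 := by unfold X3; simp [hb, hc, hαa]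
  have α4 : α (X4 b c t) = 1 := by unfold X4; simp [hb, hc, hαa, hαd]
  have α5 : α (X5 b c t) = 1 := by unfold X5; simp [hb, hc, hαa, hαd]
  have α6 : α (X6 b c t) = 1 := by unfold X6; simp [hb, hc, hαd]
  have fa : finrank F (K3 ρ (aW b c t)) = finrank F (K3 ρ b) := by
    conv_lhs => rw [ea]
    exact K3_conj ρ _ _
  have f3 : finrank F (K4 ρ (X3 b c t)) = finrank F (K4 ρ c) := by
    rw [e3]; exact K4_conj ρ _ _
  have f4 : finrank F (K3 ρ (X4 b c t)) = finrank F (K3 ρ b) := by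
    rw [e4, K3_conj, K3_inv ρ _ a3, fa]
  have fd : finrank F (K4 ρ (dW b c t)) = finrank F (K4 ρ c) := by
    conv_lhs => rw [ed]
    exact K4_conj ρ _ _
  have f5 : finrank F (K4 ρ (X5 b c t)) = finrank F (K4 ρ c) := by
    rw [e5, K4_conj, K4_conj, fd]
  have f6 : finrank F (K3 ρ (X6 b c t)) = finrank F (K3 ρ b) := by
    rw [e6, K3_conj, K3_inv ρ _ hb3]
  constructor
  · have h := four_bound ρ α t (-1) (aW b c t) b (X3 b c t) (X4 b c t) (K3 ρ (aW b c t)) (K3 ρ b) (K4 ρ (X3 b c t))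
      (K3 ρ (X4 b c t)) (fun z hz => val3 hz.1 hαa a3 _) (fun z hz => val3 hz.1 hb hb3 _)
      (fun z hz => val4 hz.1 α3 x3 _) (fun z hz => val3 hz.1 α4 x4 _)
      (fun z hz g1 g2 g3 g4 => cut_inj hG ρ α z hz (A2b b c t hG ρ α hb hc ht z hz g1 g2 g3 g4))
    rw [fa, f3, f4] at h
    have h' : finrank F (Zt (seqRep ρ α) t) ≤ 3 * finrank F (K3 ρ b) + finrank F (K4 ρ c) := by omega
    exact h'
  · have h := four_bound ρ α t 0 c (dW b c t) (X6 b c t) (X5 b c t) (K4 ρ c) (K4 ρ (dW b c t)) (K3 ρ (X6 b c t))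
      (K4 ρ (X5 b c t)) (fun z hz => val4 hz.1 hc hc4 _) (fun z hz => val4 hz.1 hαd d4 _)
      (fun z hz => val3 hz.1 α6 x6 _) (fun z hz => val4 hz.1 α5 x5 _)
      (fun z hz g1 g2 g3 g4 => cut_inj hG ρ α z hz (A2a b c t hG ρ α hb hc ht z hz g1 g2 g3 g4))
    rw [fd, f5, f6] at h
    have h' : finrank F (Zt (seqRep ρ α) t) ≤ finrank F (K3 ρ b) + 3 * finrank F (K4 ρ c) := by omega
    exact h'

end A3

end Pool.Agent.Helper95.DFJ

end
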