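import Pool.Agent.Helper95.DFJ.Wada

/-!
# DFJ: A5, A6, A7, A9a, A9
-/

section

/-!
# DFJ piece A5 (Shapiro and Fourier)

For `j : ZMod N` (or `j < N`) put `s j = g₀ ^ j`, `κ (s j) = ζ ^ j`, `s 0 = 1`. For `g : G` write `κ g = ζ ^ x(g)`. Define
`E g j = σ (s j) (c ((s j)⁻¹ g s_(j - x(g))))` (the argument lies in the kernel of `κ`). Then
`E (g h) j = E g j + σ g (E h (j - x(g)))`, and `E γ 0 = c γ` for `γ` in the kernel. Put
`C k g = (1/N) ∑_j ζ^(k j) • E g j`. Then `C k (g h) = C k g + κ(g)^k σ g (C k h)` and `∑_k C k γ = E γ 0 = c γ`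
(orthogonality: `∑_k ζ^(k j) = 0` for `j ≠ 0 mod N`).
-/

namespace Pool.Agent.Helper95.DFJ

open Multiplicative Module

section A5
variable {F : Type*} [Field F] {M : Type*} [AddCommGroup M] [Module F M] {G : Type*} [Group G]

/-- a crossed homomorphism on the kernel of a character of order `N` is a sum of
restrictions of crossed homomorphisms for the twists -/
theorem A5 (σ : Representation F G M) (N : ℕ) [NeZero N] (hN : (N : F) ≠ 0) (ζ : Fˣ)
    (hζ : IsPrimitiveRoot ζ N) (κ : G →* Fˣ) (hκ : ∀ g, ∃ j : ℕ, κ g = ζ ^ j) (g₀ : G) (hg₀ : κ g₀ = ζ)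
    (c : κ.ker → M) (hc : c ∈ Zc (resRep κ.ker σ)) :
    ∃ C : Fin N → G → M, (∀ j : Fin N, C j ∈ Zc (tw (κ ^ (j : ℕ)) σ)) ∧
      ∀ g : κ.ker, c g = ∑ j, C j (g : G) := by
  classical
  -- the character `z : ZMod N → Fˣ`
  let z : ZMod N → Fˣ := fun a => ζ ^ a.val
  have hzadd : ∀ a b, z (a + b) = z a * z b := by
    intro a b
    change ζ ^ (a + b).val = ζ ^ a.val * ζ ^ b.val
    rw [ZMod.val_add, ← pow_eq_pow_mod _ hζ.pow_eq_one, pow_add]
  have hz0 : z 0 = 1 := by
    change ζ ^ (0 : ZMod N).val = 1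
    rw [ZMod.val_zero, pow_zero]
  have hzcast : ∀ j : ℕ, z (j : ZMod N) = ζ ^ j := by
    intro j
    change ζ ^ ((j : ZMod N)).val = ζ ^ j
    rw [ZMod.val_natCast, ← pow_eq_pow_mod _ hζ.pow_eq_one]
  have hzinj : ∀ a, z a = 1 → a = 0 := by
    intro a ha
    have h1 : N ∣ a.val := (hζ.pow_eq_one_iff_dvd _).1 ha
    have h2 : a.val < N := ZMod.val_lt a
    have h3 : a.val = 0 := Nat.eq_zero_of_dvd_of_lt h1 h2
    exact (ZMod.val_eq_zero a).1 h3
  have hzN : ∀ a, (z a) ^ N = 1 := by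
    intro a
    change (ζ ^ a.val) ^ N = 1
    rw [← pow_mul, mul_comm, pow_mul, hζ.pow_eq_one, one_pow]
  have hzsub : ∀ a b, z (a - b) * z b = z a := by
    intro a b
    rw [← hzadd, sub_add_cancel]
  -- the degree
  choose y hy using hκ
  let x : G → ZMod N := fun g => (y g : ZMod N)
  have hx : ∀ g, κ g = z (x g) := fun g => by rw [hzcast, hy]
  have hxmul : ∀ g h, x (g * h) = x g + x h := by
    intro g h
    have h1 : z (x (g * h)) = z (x g + x h) := by rw [hzadd, ← hx, ← hx, ← hx, map_mul]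
    have h2 : z (x (g * h) - (x g + x h)) = 1 := by
      have h3 := hzsub (x (g * h)) (x g + x h)
      rw [h1] at h3
      exact mul_eq_right.1 h3
    exact sub_eq_zero.1 (hzinj _ h2)
  -- the section
  let s : ZMod N → G := fun a => g₀ ^ a.val
  have hs : ∀ a, κ (s a) = z a := by
    intro a
    change κ (g₀ ^ a.val) = ζ ^ a.val
    rw [map_pow, hg₀]
  have hs0 : s 0 = 1 := by
    change g₀ ^ (0 : ZMod N).val = 1
    rw [ZMod.val_zero, pow_zero]
  -- extension of `c` by zero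
  let c' : G → M := fun g => if h : g ∈ κ.ker then c ⟨g, h⟩ else 0
  have hc' : ∀ a b, a ∈ κ.ker → b ∈ κ.ker → c' (a * b) = c' a + σ a (c' b) := by
    intro a b ha hb
    have h1 : c' (a * b) = c (⟨a, ha⟩ * ⟨b, hb⟩) := by
      change (if h : a * b ∈ κ.ker then c ⟨a * b, h⟩ else 0) = _
      rw [dif_pos (mul_mem ha hb)]
      rfl
    have h2 : c' a = c ⟨a, ha⟩ := dif_pos ha
    have h3 : c' b = c ⟨b, hb⟩ := dif_pos hb
    rw [h1, h2, h3, hc ⟨a, ha⟩ ⟨b, hb⟩]
    rfl
  let E : G → ZMod N → M := fun g j => σ (s j) (c' ((s j)⁻¹ * g * s (j - x g)))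
  have hker : ∀ g j, (s j)⁻¹ * g * s (j - x g) ∈ κ.ker := by
    intro g j
    rw [MonoidHom.mem_ker, map_mul, map_mul, map_inv, hs, hs, hx g, mul_assoc, mul_comm (z (x g)),
      hzsub, inv_mul_cancel]
  have hE : ∀ g h j, E (g * h) j = E g j + σ g (E h (j - x g)) := by
    intro g h j
    have h1 : (s j)⁻¹ * (g * h) * s (j - x (g * h)) =
        ((s j)⁻¹ * g * s (j - x g)) * ((s (j - x g))⁻¹ * h * s (j - x g - x h)) := by
      rw [hxmul, sub_add_eq_sub_sub]
      group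
    change σ (s j) (c' ((s j)⁻¹ * (g * h) * s (j - x (g * h)))) =
      σ (s j) (c' ((s j)⁻¹ * g * s (j - x g))) +
        σ g (σ (s (j - x g)) (c' ((s (j - x g))⁻¹ * h * s (j - x g - x h))))
    rw [h1, hc' _ _ (hker g j) (hker h (j - x g)), map_add]
    congr 1
    rw [← Module.End.mul_apply, ← Module.End.mul_apply, ← map_mul, ← map_mul]
    congr 2
    group
  let C : Fin N → G → M := fun k g => (N : F)⁻¹ • ∑ j : ZMod N, ((z j : F) ^ (k : ℕ)) • E g j
  refine ⟨C, ?_, ?_⟩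
  · intro k g h
    rw [tw_apply]
    change (N : F)⁻¹ • ∑ j : ZMod N, ((z j : F) ^ (k : ℕ)) • E (g * h) j =
      (N : F)⁻¹ • ∑ j : ZMod N, ((z j : F) ^ (k : ℕ)) • E g j +
        (((κ ^ (k : ℕ)) g : Fˣ) : F) •
          σ g ((N : F)⁻¹ • ∑ j : ZMod N, ((z j : F) ^ (k : ℕ)) • E h j)
    have h1 : ∑ j : ZMod N, ((z j : F) ^ (k : ℕ)) • E (g * h) j =
        ∑ j : ZMod N, ((z j : F) ^ (k : ℕ)) • E g j +
          ∑ j : ZMod N, ((z j : F) ^ (k : ℕ)) • σ g (E h (j - x g)) := by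
      rw [← Finset.sum_add_distrib]
      exact Finset.sum_congr rfl fun j _ => by rw [hE, smul_add]
    have h2 : ∑ j : ZMod N, ((z j : F) ^ (k : ℕ)) • σ g (E h (j - x g)) =
        (((κ ^ (k : ℕ)) g : Fˣ) : F) • σ g (∑ j : ZMod N, ((z j : F) ^ (k : ℕ)) • E h j) := by
      rw [← Equiv.sum_comp (Equiv.addRight (x g)), map_sum, Finset.smul_sum]
      refine Finset.sum_congr rfl fun j _ => ?_
      rw [Equiv.coe_addRight, add_sub_cancel_right, hzadd, map_smul, smul_smul]
      congr 1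
      rw [MonoidHom.pow_apply, hx g, Units.val_mul, mul_pow, mul_comm, Units.val_pow_eq_pow_val (z (x g))]
    rw [h1, h2, smul_add, map_smul, smul_comm (N : F)⁻¹]
  · intro g
    have hxg : x (g : G) = 0 := by
      apply hzinj
      rw [← hx]
      exact g.2
    have hE0 : E (g : G) 0 = c g := by
      change σ (s 0) (c' ((s 0)⁻¹ * (g : G) * s (0 - x (g : G)))) = c g
      rw [hxg, sub_zero, hs0, inv_one, one_mul, mul_one, map_one, Module.End.one_apply]
      exact dif_pos g.2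
    have horth : ∀ j : ZMod N, ∑ k : Fin N, (z j : F) ^ (k : ℕ) = if j = 0 then (N : F) else 0 := by
      intro j
      rw [Fin.sum_univ_eq_sum_range (fun k => (z j : F) ^ k) N]
      split_ifs with hj
      · rw [hj, hz0]
        simp
      · have hne : (z j : F) ≠ 1 := by
          intro h
          exact hj (hzinj j (Units.ext h))
        rw [geom_sum_eq hne]
        have : (z j : F) ^ N = 1 := by
          rw [← Units.val_pow_eq_pow_val, hzN, Units.val_one]
        rw [this, sub_self, zero_div]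
    change c g = ∑ k : Fin N, (N : F)⁻¹ • ∑ j : ZMod N, ((z j : F) ^ (k : ℕ)) • E (g : G) j
    rw [← Finset.smul_sum, Finset.sum_comm]
    have h1 : ∑ j : ZMod N, ∑ k : Fin N, ((z j : F) ^ (k : ℕ)) • E (g : G) j = (N : F) • c g := by
      rw [Finset.sum_eq_single (0 : ZMod N)]
      · rw [← Finset.sum_smul, horth, if_pos rfl, hE0]
      · intro j _ hj
        rw [← Finset.sum_smul, horth, if_neg hj, zero_smul]
      · intro h
        exact absurd (Finset.mem_univ _) h
    rw [h1, smul_smul, inv_mul_cancel₀ hN, one_smul]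

end A5

end Pool.Agent.Helper95.DFJ

end

section

/-!
# DFJ piece A6

`(t m)(i) = κ(t) ρ(t) m(i - 1)`: solve `κ(t) ρ(t) m(i-1) - m(i) = f(i)` with `m(0) = 0`, upwards and downwards (`ρ(t)` is invertible).
-/

namespace Pool.Agent.Helper95.DFJ

open Multiplicative Module

section A6
variable {F : Type*} [Field F] {V : Type*} [AddCommGroup V] [Module F V] {G : Type*} [Group G]

/-- the linear automorphism `κ(t) ρ(t)` -/
private def A6E (ρ : Representation F G V) (t : G) (κ : G →* Fˣ) : V ≃ₗ[F] V where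
  toFun v := (κ t : F) • ρ t v
  map_add' a b := by rw [map_add, smul_add]
  map_smul' r a := by rw [map_smul, RingHom.id_apply, smul_comm]
  invFun v := (((κ t)⁻¹ : Fˣ) : F) • ρ t⁻¹ v
  left_inv v := by
    show (((κ t)⁻¹ : Fˣ) : F) • ρ t⁻¹ ((κ t : F) • ρ t v) = v
    rw [map_smul, smul_smul, Units.inv_mul, one_smul, ← Module.End.mul_apply, ← map_mul,
      inv_mul_cancel, map_one, Module.End.one_apply]
  right_inv v := by
    show (κ t : F) • ρ t ((((κ t)⁻¹ : Fˣ) : F) • ρ t⁻¹ v) = v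
    rw [map_smul, smul_smul, Units.mul_inv, one_smul, ← Module.End.mul_apply, ← map_mul,
      mul_inv_cancel, map_one, Module.End.one_apply]

private theorem A6E_apply (ρ : Representation F G V) (t : G) (κ : G →* Fˣ) (v : V) :
    A6E ρ t κ v = (κ t : F) • ρ t v := rfl

private theorem A6tw (ρ : Representation F G V) (α : G →* Multiplicative ℤ) (t : G)
    (ht : α t = ofAdd 1) (κ : G →* Fˣ) (m : ℤ → V) (i : ℤ) :
    tw κ (seqRep ρ α) t m i = A6E ρ t κ (m (i - 1)) := by
  rw [tw_apply, Pi.smul_apply, seqRep_apply, ht, toAdd_ofAdd, A6E_apply]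

/-- solution upwards -/
private def A6p (E : V ≃ₗ[F] V) (f : ℤ → V) : ℕ → V
  | 0 => 0
  | (n + 1) => E (A6p E f n) - f ((n : ℤ) + 1)

/-- solution downwards -/
private def A6q (E : V ≃ₗ[F] V) (f : ℤ → V) : ℕ → V
  | 0 => 0
  | (n + 1) => E.symm (A6q E f n + f (-(n : ℤ)))

/-- the two sided solution -/
private def A6m (E : V ≃ₗ[F] V) (f : ℤ → V) : ℤ → V
  | Int.ofNat n => A6p E f n
  | Int.negSucc n => A6q E f (n + 1)

private theorem A6m_eq (E : V ≃ₗ[F] V) (f : ℤ → V) (i : ℤ) :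
    E (A6m E f (i - 1)) - A6m E f i = f i := by
  rcases i with n | n
  · rcases n with _ | n
    · have h1 : (Int.ofNat 0 - 1 : ℤ) = Int.negSucc 0 := rfl
      rw [h1]
      show E (E.symm ((0 : V) + f (-((0 : ℕ) : ℤ)))) - (0 : V) = f (Int.ofNat 0)
      rw [LinearEquiv.apply_symm_apply, sub_zero, zero_add]
      congr 1
    · have h1 : (Int.ofNat (n + 1) - 1 : ℤ) = Int.ofNat n := by
        simp
      rw [h1]
      show E (A6p E f n) - (E (A6p E f n) - f ((n : ℤ) + 1)) = f (Int.ofNat (n + 1))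
      rw [sub_sub_cancel]
      congr 1
  · have h1 : (Int.negSucc n - 1 : ℤ) = Int.negSucc (n + 1) := by
      rw [Int.negSucc_sub_one]
    rw [h1]
    show E (E.symm (A6q E f (n + 1) + f (-((n + 1 : ℕ) : ℤ)))) - A6q E f (n + 1) = f (Int.negSucc n)
    rw [LinearEquiv.apply_symm_apply, add_sub_cancel_left]
    congr 1

/-- `t - 1` is onto when `α t = 1` -/
theorem A6 (ρ : Representation F G V) (α : G →* Multiplicative ℤ) (t : G) (ht : α t = ofAdd 1)
    (κ : G →* Fˣ) (f : ℤ → V) : ∃ m : ℤ → V, tw κ (seqRep ρ α) t m - m = f := by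
  refine ⟨A6m (A6E ρ t κ) f, funext fun i => ?_⟩
  rw [Pi.sub_apply, A6tw ρ α t ht]
  exact A6m_eq _ f i

/-- the sequences fixed by `t` are determined by their value at `0`, which is arbitrary -/
theorem A6' (ρ : Representation F G V) (α : G →* Multiplicative ℤ) (t : G) (ht : α t = ofAdd 1)
    (κ : G →* Fˣ) : ∃ φ : V →ₗ[F] (ℤ → V), (∀ v, φ v 0 = v) ∧ (∀ v, tw κ (seqRep ρ α) t (φ v) = φ v) ∧
      ∀ m : ℤ → V, tw κ (seqRep ρ α) t m = m → m = φ (m 0) := by
  have hs : ∀ (i : ℤ) (v : V), A6E ρ t κ ((A6E ρ t κ ^ (i - 1)) v) = (A6E ρ t κ ^ i) v := by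
    intro i v
    have h : A6E ρ t κ ^ i = A6E ρ t κ * A6E ρ t κ ^ (i - 1) := by
      rw [← zpow_one_add]; congr 1; ring
    rw [h]; rfl
  let φ : V →ₗ[F] (ℤ → V) := LinearMap.pi fun i => ((A6E ρ t κ ^ i : V ≃ₗ[F] V) : V →ₗ[F] V)
  have hφ : ∀ v i, φ v i = (A6E ρ t κ ^ i) v := fun v i => rfl
  refine ⟨φ, fun v => ?_, fun v => ?_, fun m hm => ?_⟩
  · rw [hφ, zpow_zero]; rfl
  · funext i
    rw [A6tw ρ α t ht, hφ, hφ, hs]
  · have hm' : ∀ i, A6E ρ t κ (m (i - 1)) = m i := fun i => by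
      rw [← A6tw ρ α t ht, hm]
    funext i
    rw [hφ]
    induction i using Int.induction_on with
    | zero => rw [zpow_zero]; rfl
    | succ n ih =>
      rw [← hm' (n + 1), ← hs (n + 1), add_sub_cancel_right, ih]
    | pred n ih =>
      have h2 := hm' (-(n : ℤ))
      have h3 := hs (-(n : ℤ)) (m 0)
      rw [← h3] at ih
      rw [← h2] at ih
      exact (A6E ρ t κ).injective ih
end A6

end Pool.Agent.Helper95.DFJ

end

section

/-!
# DFJ piece A7 (the cohomology of the kernel is small)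

For every `j`, `B_j = {cob m : t m = m} ⊆ Zt_j` has dimension `dim V` (A6 second part, and `cob` is injective on all of `ℤ → V` by `hinv`).
Choose a complement `D_j` of `B_j` in `Zt_j`: its dimension is at most `z j - dim V`. Let `D` be the sum of the restrictions of the `D_j` to
the kernel of `κ` (there the twists disappear, so they are crossed homomorphisms for `resRep`). Given `c`, A5 gives `c = ∑ C_j` on the kernel;
by A6, `C_j = c'_j + cob m_j` with `c'_j ∈ Zt_j`, `c'_j = d_j + cob m'_j`. Restrict to the kernel and add up (`seqRep_tw` is `rfl`).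
-/

namespace Pool.Agent.Helper95.DFJ

open Multiplicative Module

section A7aux
variable {F : Type*} [Field F] {M : Type*} [AddCommGroup M] [Module F M] {G : Type*} [Group G]

/-- restriction of functions to a subgroup, linear -/
def resFun (F : Type*) [Field F] {M : Type*} [AddCommGroup M] [Module F M] {G : Type*} [Group G]
    (K : Subgroup G) : (G → M) →ₗ[F] (K → M) where
  toFun c g := c (g : G)
  map_add' _ _ := rfl
  map_smul' _ _ := rfl

/-- coboundary as a linear map -/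
def cobL (σ : Representation F G M) : M →ₗ[F] (G → M) where
  toFun m := cob σ m
  map_add' a b := by funext g; simp only [cob, map_add, Pi.add_apply]; abel
  map_smul' r a := by funext g; simp only [cob, map_smul, Pi.smul_apply, smul_sub, RingHom.id_apply]

/-- one twist: a complement of the coboundaries -/
theorem A7_one (σ : Representation F G M) (t : G) {V : Type*} [AddCommGroup V] [Module F V]
    [FiniteDimensional F V] (φ : V →ₗ[F] M) (hφt : ∀ v, σ t (φ v) = φ v)
    (hφi : ∀ v, (∀ g, σ g (φ v) = φ v) → v = 0) (hfin : FiniteDimensional F (Zt σ t))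
    (hsurj : ∀ f : M, ∃ m : M, σ t m - m = f) :
    ∃ D : Submodule F (G → M), FiniteDimensional F D ∧
      finrank F D = finrank F (Zt σ t) - finrank F V ∧ D ≤ Zt σ t ∧
      ∀ c ∈ Zc σ, ∃ d ∈ D, ∃ m : M, c = d + cob σ m := by
  classical
  haveI := hfin
  let ψ : V →ₗ[F] Zt σ t := ((cobL σ).comp φ).codRestrict (Zt σ t) (by
    intro v
    refine ⟨cob_mem σ (φ v), ?_⟩
    show σ t (φ v) - φ v = 0
    rw [hφt v, sub_self])
  have hψ : Function.Injective ψ := by
    rw [← LinearMap.ker_eq_bot, LinearMap.ker_eq_bot']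
    intro v hv
    apply hφi
    intro g
    have h1 : (ψ v : G → M) = 0 := by rw [hv]; rfl
    have h2 := congrFun h1 g
    have h3 : σ g (φ v) - φ v = 0 := h2
    exact sub_eq_zero.1 h3
  obtain ⟨D', hD'⟩ := Submodule.exists_isCompl (LinearMap.range ψ)
  have hfr : finrank F (LinearMap.range ψ) = finrank F V := LinearMap.finrank_range_of_inj hψ
  have hadd := Submodule.finrank_add_eq_of_isCompl hD'
  refine ⟨D'.map (Zt σ t).subtype, inferInstance, ?_, ?_, ?_⟩
  · rw [Submodule.finrank_map_subtype_eq]; omega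
  · rintro _ ⟨d, _, rfl⟩
    exact d.2
  · intro c hc
    obtain ⟨m, hm⟩ := hsurj (c t)
    have hct : c - cob σ m ∈ Zt σ t := by
      refine ⟨sub_mem hc (cob_mem σ m), ?_⟩
      show c t - (σ t m - m) = 0
      rw [hm, sub_self]
    have htop : (⟨c - cob σ m, hct⟩ : Zt σ t) ∈ LinearMap.range ψ ⊔ D' := by
      rw [hD'.sup_eq_top]; trivial
    obtain ⟨_, ⟨v, rfl⟩, d, hd, hs⟩ := Submodule.mem_sup.1 htop
    refine ⟨(d : G → M), ⟨d, hd, rfl⟩, φ v + m, ?_⟩
    have h1 : (ψ v : G → M) + (d : G → M) = c - cob σ m := congrArg Subtype.val hs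
    have h2 : (ψ v : G → M) = cob σ (φ v) := rfl
    have h3 : cob σ (φ v + m) = cob σ (φ v) + cob σ m := (cobL σ).map_add (φ v) m
    rw [h3, ← h2]
    have h4 : c = (ψ v : G → M) + (d : G → M) + cob σ m := by rw [h1]; abel
    rw [h4]; abel

end A7aux

section A7
variable {F : Type*} [Field F] {V : Type*} [AddCommGroup V] [Module F V] {G : Type*} [Group G]

/-- the cohomology of the kernel is small. `z j` bounds the dimensions of the spaces for the twists -/
theorem A7 (ρ : Representation F G V) [FiniteDimensional F V] (α : G →* Multiplicative ℤ) (t : G)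
    (ht : α t = ofAdd 1) (N : ℕ) [NeZero N] (hN : (N : F) ≠ 0) (ζ : Fˣ)
    (hζ : IsPrimitiveRoot ζ N) (κ : G →* Fˣ) (hκ : ∀ g, ∃ j : ℕ, κ g = ζ ^ j) (g₀ : G) (hg₀ : κ g₀ = ζ)
    (hκt : κ t = 1)
    (hfin : ∀ j : Fin N, FiniteDimensional F (Zt (seqRep (tw (κ ^ (j : ℕ)) ρ) α) t))
    (hinv : ∀ j : Fin N, ∀ m : ℤ → V, (∀ g, seqRep (tw (κ ^ (j : ℕ)) ρ) α g m = m) → m = 0)
    (z : Fin N → ℕ) (hz : ∀ j : Fin N, finrank F (Zt (seqRep (tw (κ ^ (j : ℕ)) ρ) α) t) ≤ z j)
    (hzn : ∀ j, finrank F V ≤ z j) :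
    ∃ D : Submodule F (κ.ker → ℤ → V), FiniteDimensional F D ∧
      finrank F D ≤ ∑ j : Fin N, (z j - finrank F V) ∧ D ≤ Zc (resRep κ.ker (seqRep ρ α)) ∧
      ∀ c ∈ Zc (resRep κ.ker (seqRep ρ α)), ∃ d ∈ D, ∃ m : ℤ → V,
        c = d + cob (resRep κ.ker (seqRep ρ α)) m := by
  classical
  have hone : ∀ j : Fin N, ∃ D : Submodule F (G → ℤ → V), FiniteDimensional F D ∧
      finrank F D = finrank F (Zt (seqRep (tw (κ ^ (j : ℕ)) ρ) α) t) - finrank F V ∧
      D ≤ Zt (seqRep (tw (κ ^ (j : ℕ)) ρ) α) t ∧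
      ∀ c ∈ Zc (seqRep (tw (κ ^ (j : ℕ)) ρ) α), ∃ d ∈ D, ∃ m : ℤ → V,
        c = d + cob (seqRep (tw (κ ^ (j : ℕ)) ρ) α) m := by
    intro j
    obtain ⟨φ, h0, h1, -⟩ := A6' ρ α t ht (κ ^ (j : ℕ))
    refine A7_one (seqRep (tw (κ ^ (j : ℕ)) ρ) α) t φ h1 ?_ (hfin j) (A6 ρ α t ht (κ ^ (j : ℕ)))
    intro v hv
    have := hinv j (φ v) hv
    rw [← h0 v, this]; rfl
  choose D hDfin hDrank hDle hDdec using hone
  have hker : ∀ (g : κ.ker) (j : ℕ), ((κ ^ j) (g : G) : F) = 1 := by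
    intro g j
    have hg : κ (g : G) = 1 := g.2
    rw [MonoidHom.pow_apply, hg, one_pow, Units.val_one]
  have htw : ∀ (g : κ.ker) (j : ℕ) (x : ℤ → V),
      seqRep (tw (κ ^ j) ρ) α (g : G) x = resRep κ.ker (seqRep ρ α) g x := by
    intro g j x
    rw [seqRep_tw, tw_apply, hker, one_smul]; rfl
  have hZc : ∀ (j : Fin N) (c : G → ℤ → V), c ∈ Zc (seqRep (tw (κ ^ (j : ℕ)) ρ) α) →
      resFun F κ.ker c ∈ Zc (resRep κ.ker (seqRep ρ α)) := by
    intro j c hc g h
    show c ((g * h : κ.ker) : G) = c (g : G) + resRep κ.ker (seqRep ρ α) g (c (h : G))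
    rw [← htw g j, Subgroup.coe_mul]
    exact hc g h
  refine ⟨⨆ j, (D j).map (resFun F κ.ker), ?_, ?_, ?_, ?_⟩
  · haveI : ∀ j, FiniteDimensional F ((D j).map (resFun F κ.ker)) := fun j => by
      haveI := hDfin j; infer_instance
    infer_instance
  · have hsup : ∀ s : Finset (Fin N), FiniteDimensional F
        ((s.sup fun j => (D j).map (resFun F κ.ker) : Submodule F (κ.ker → ℤ → V))) ∧
        finrank F ((s.sup fun j => (D j).map (resFun F κ.ker) : Submodule F (κ.ker → ℤ → V))) ≤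
          ∑ j ∈ s, (z j - finrank F V) := by
      intro s
      induction s using Finset.induction_on with
      | empty =>
        simp only [Finset.sup_empty, Finset.sum_empty]
        exact ⟨inferInstance, le_of_eq (finrank_bot F _)⟩
      | insert a s has ih =>
        obtain ⟨ih1, ih2⟩ := ih
        haveI := ih1
        haveI := hDfin a
        rw [Finset.sup_insert, Finset.sum_insert has]
        refine ⟨inferInstance, ?_⟩
        have h1 := Submodule.finrank_add_le_finrank_add_finrank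
          ((D a).map (resFun F κ.ker)) (s.sup fun j => (D j).map (resFun F κ.ker))
        have h2 : finrank F ((D a).map (resFun F κ.ker)) ≤ z a - finrank F V := by
          have h3 := Submodule.finrank_map_le (resFun F κ.ker (M := ℤ → V)) (D a)
          have h4 := hDrank a
          have h5 := hz a
          omega
        omega
    have := (hsup Finset.univ).2
    rwa [Finset.sup_univ_eq_iSup] at this
  · refine iSup_le fun j => ?_
    rintro _ ⟨d, hd, rfl⟩
    exact hZc j d (hDle j hd).1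
  · intro c hc
    obtain ⟨C, hC, hcC⟩ := A5 (seqRep ρ α) N hN ζ hζ κ hκ g₀ hg₀ c hc
    have hdec : ∀ j : Fin N, ∃ d ∈ D j, ∃ m : ℤ → V,
        C j = d + cob (seqRep (tw (κ ^ (j : ℕ)) ρ) α) m := fun j => hDdec j (C j) (hC j)
    choose d hd m hm using hdec
    refine ⟨∑ j, resFun F κ.ker (d j), ?_, ∑ j, m j, ?_⟩
    · refine Submodule.sum_mem _ fun j _ => ?_
      exact Submodule.mem_iSup_of_mem j ⟨d j, hd j, rfl⟩
    · funext g
      rw [hcC g]
      have h1 : ∀ j : Fin N, C j (g : G) = resFun F κ.ker (d j) g +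
          (resRep κ.ker (seqRep ρ α) g (m j) - m j) := by
        intro j
        rw [hm j]
        show d j (g : G) + (seqRep (tw (κ ^ (j : ℕ)) ρ) α (g : G) (m j) - m j) = _
        rw [htw g j]; rfl
      rw [Finset.sum_congr rfl fun j _ => h1 j, Finset.sum_add_distrib]
      show _ = (∑ j, resFun F κ.ker (d j)) g +
        (resRep κ.ker (seqRep ρ α) g (∑ j, m j) - ∑ j, m j)
      rw [map_sum, Finset.sum_apply, Finset.sum_sub_distrib]

end A7

end Pool.Agent.Helper95.DFJ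

end

section

/-!
# DFJ piece A9a (independence of the restrictions)

For `γ` in the kernel and `g : G`: `C_j (g γ g⁻¹) = κ(g)^j σ g (C_j γ) + (C_j g - σ(g γ g⁻¹) (C_j g))`. Sum over `j`: with
`S_g = ∑_j C_j g`, `∑_j κ(g)^j C_j γ = σ γ m_g - m_g`, `m_g = σ g⁻¹ S_g`. Take `g = g₀ ^ i`, `i < N`, and invert the Fourier matrix:
every `C_j` restricted to the kernel is `cob (n_j)`. `C_j t = 0` gives `σ t n_j = n_j`. The crossed homomorphism
`C_j - cob (tw (κ^j) σ) n_j` vanishes on the kernel (normal), so its values are fixed by the kernel: for `g : G`, `γ` in the kernel,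
`c (γ g) = c γ + σ γ (c g) = σ γ (c g)` and `c (γ g) = c (g (g⁻¹ γ g)) = c g`; so they vanish by `hinv`. Hence `C_j = cob n_j`.
Finally `∑ n_j` is fixed by the kernel (`∑_j C_j = 0` on the kernel), so it vanishes.
-/

namespace Pool.Agent.Helper95.DFJ

open Multiplicative Module

section A9a
variable {F : Type*} [Field F] {M : Type*} [AddCommGroup M] [Module F M] {G : Type*} [Group G]

private theorem four (N : ℕ) (ζ : F) (hζ : IsPrimitiveRoot ζ N) (j k : Fin N) :
    ∑ i ∈ Finset.range N, ((ζ ^ (k : ℕ))⁻¹) ^ i * (ζ ^ i) ^ (j : ℕ) = if j = k then (N : F) else 0 := by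
  have hN0 : N ≠ 0 := fun h => by
    have := j.2
    omega
  have hz0 : ζ ≠ 0 := hζ.ne_zero hN0
  have e : ∀ i ∈ Finset.range N, ((ζ ^ (k : ℕ))⁻¹) ^ i * (ζ ^ i) ^ (j : ℕ) =
      (ζ ^ (j : ℕ) * (ζ ^ (k : ℕ))⁻¹) ^ i := by
    intro i _
    rw [mul_pow, ← pow_mul ζ i, mul_comm i, pow_mul, mul_comm]
  rw [Finset.sum_congr rfl e]
  split_ifs with h
  · subst h
    rw [mul_inv_cancel₀ (pow_ne_zero _ hz0)]
    simp
  · have h1 := mul_geom_sum (ζ ^ (j : ℕ) * (ζ ^ (k : ℕ))⁻¹) N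
    have h2 : (ζ ^ (j : ℕ) * (ζ ^ (k : ℕ))⁻¹) ^ N = 1 := by
      rw [mul_pow, inv_pow, ← pow_mul, ← pow_mul, mul_comm (j : ℕ), mul_comm (k : ℕ), pow_mul, pow_mul,
        hζ.pow_eq_one, one_pow, one_pow, inv_one, mul_one]
    rw [h2, sub_self] at h1
    refine (mul_eq_zero.mp h1).resolve_left fun h3 => h ?_
    have h4 : ζ ^ (j : ℕ) = ζ ^ (k : ℕ) := by
      have h5 := sub_eq_zero.mp h3
      field_simp at h5
      exact h5
    exact Fin.ext (hζ.pow_inj j.2 k.2 h4)

private theorem conj_val {τ : Representation F G M} {c : G → M} (hc : c ∈ Zc τ) (g γ : G) :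
    c (g * γ * g⁻¹) = c g + τ g (c γ) - τ (g * γ * g⁻¹) (c g) := by
  rw [hc (g * γ) g⁻¹, hc g γ, Zc_inv hc g, map_neg, ← sub_eq_add_neg, map_mul τ (g * γ) g⁻¹]
  rfl

private theorem tw_ker (σ : Representation F G M) (κ : G →* Fˣ) (j : ℕ) {γ : G} (hγ : γ ∈ κ.ker) (x : M) :
    tw (κ ^ j) σ γ x = σ γ x := by
  rw [tw_apply, MonoidHom.pow_apply, MonoidHom.mem_ker.mp hγ, one_pow, Units.val_one, one_smul]

private theorem key (σ : Representation F G M) (N : ℕ) (κ : G →* Fˣ) (C : Fin N → G → M)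
    (hC : ∀ j : Fin N, C j ∈ Zc (tw (κ ^ (j : ℕ)) σ)) (h0 : ∀ g ∈ κ.ker, ∑ j, C j g = 0)
    (g γ : G) (hγ : γ ∈ κ.ker) :
    ∑ j : Fin N, (κ g : F) ^ (j : ℕ) • C j γ = σ γ (σ g⁻¹ (∑ j, C j g)) - σ g⁻¹ (∑ j, C j g) := by
  have hker : g * γ * g⁻¹ ∈ κ.ker := (inferInstance : κ.ker.Normal).conj_mem γ hγ g
  have h1 := h0 _ hker
  have h2 : ∀ j ∈ Finset.univ (α := Fin N), C j (g * γ * g⁻¹) =
      C j g + (κ g : F) ^ (j : ℕ) • σ g (C j γ) - σ (g * γ * g⁻¹) (C j g) := by
    intro j _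
    rw [conj_val (hC j), tw_ker σ κ j hker, tw_apply, MonoidHom.pow_apply, Units.val_pow_eq_pow_val]
  rw [Finset.sum_congr rfl h2, Finset.sum_sub_distrib, Finset.sum_add_distrib, ← map_sum] at h1
  have h3 : ∑ j : Fin N, (κ g : F) ^ (j : ℕ) • σ g (C j γ)
      = σ g (∑ j : Fin N, (κ g : F) ^ (j : ℕ) • C j γ) := by
    rw [map_sum]
    exact Finset.sum_congr rfl fun j _ => (map_smul _ _ _).symm
  rw [h3] at h1
  have h4 := congrArg (σ g⁻¹) h1
  rw [map_zero, map_sub, map_add] at h4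
  have e1 : ∀ x, σ g⁻¹ (σ g x) = x := fun x => by
    rw [← Module.End.mul_apply, ← map_mul, inv_mul_cancel, map_one, Module.End.one_apply]
  have e2 : ∀ x, σ g⁻¹ (σ (g * γ * g⁻¹) x) = σ γ (σ g⁻¹ x) := fun x => by
    rw [← Module.End.mul_apply, ← map_mul, ← Module.End.mul_apply, ← map_mul]
    congr 2
    group
  rw [e1, e2] at h4
  rw [eq_sub_iff_add_eq, ← sub_eq_zero, ← h4]
  abel

/-- if `∑ C_j` vanishes on the kernel then each `C_j` is a coboundary of
an element fixed by `t`, and these elements add up to zero -/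
theorem A9a (σ : Representation F G M) (N : ℕ) [NeZero N] (hN : (N : F) ≠ 0) (ζ : Fˣ)
    (hζ : IsPrimitiveRoot ζ N) (κ : G →* Fˣ) (hκ : ∀ g, ∃ j : ℕ, κ g = ζ ^ j) (g₀ : G) (hg₀ : κ g₀ = ζ)
    (t : G) (ht : κ t = 1) (hinv : ∀ m : M, (∀ g ∈ κ.ker, σ g m = m) → m = 0)
    (C : Fin N → G → M) (hC : ∀ j : Fin N, C j ∈ Zt (tw (κ ^ (j : ℕ)) σ) t)
    (h0 : ∀ g ∈ κ.ker, ∑ j, C j g = 0) :
    ∃ m : Fin N → M, (∀ j : Fin N, C j = cob (tw (κ ^ (j : ℕ)) σ) (m j)) ∧ (∀ j, σ t (m j) = m j) ∧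
      ∑ j, m j = 0 := by
  classical
  have hζF : IsPrimitiveRoot (ζ : F) N := IsPrimitiveRoot.coe_units_iff.mpr hζ
  have hCc : ∀ j : Fin N, C j ∈ Zc (tw (κ ^ (j : ℕ)) σ) := fun j => (hC j).1
  set m : ℕ → M := fun i => σ (g₀ ^ i)⁻¹ (∑ j, C j (g₀ ^ i)) with hm
  have hkey : ∀ i γ, γ ∈ κ.ker →
      ∑ j : Fin N, ((ζ : F) ^ i) ^ (j : ℕ) • C j γ = σ γ (m i) - m i := by
    intro i γ hγ
    have h := key σ N κ C hCc h0 (g₀ ^ i) γ hγ
    rw [map_pow, hg₀, Units.val_pow_eq_pow_val] at h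
    exact h
  set n : Fin N → M := fun k => (N : F)⁻¹ •
    ∑ i ∈ Finset.range N, (((ζ : F) ^ (k : ℕ))⁻¹) ^ i • m i with hn
  have hCk : ∀ k γ, γ ∈ κ.ker → C k γ = σ γ (n k) - n k := by
    intro k γ hγ
    have h1 : σ γ (n k) - n k = (N : F)⁻¹ • ∑ i ∈ Finset.range N,
        (((ζ : F) ^ (k : ℕ))⁻¹) ^ i • (σ γ (m i) - m i) := by
      simp only [hn, map_smul, map_sum, smul_sub, Finset.sum_sub_distrib]
    rw [h1]
    have h2 : ∑ i ∈ Finset.range N, (((ζ : F) ^ (k : ℕ))⁻¹) ^ i • (σ γ (m i) - m i) =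
        ∑ j : Fin N, (∑ i ∈ Finset.range N, (((ζ : F) ^ (k : ℕ))⁻¹) ^ i * ((ζ : F) ^ i) ^ (j : ℕ)) •
          C j γ := by
      simp only [Finset.sum_smul]
      rw [Finset.sum_comm]
      refine Finset.sum_congr rfl fun i _ => ?_
      rw [← hkey i γ hγ, Finset.smul_sum]
      exact Finset.sum_congr rfl fun j _ => smul_smul _ _ _
    rw [h2]
    simp only [four N (ζ : F) hζF, ite_smul, zero_smul, Finset.sum_ite_eq', Finset.mem_univ, if_true]
    rw [smul_smul, inv_mul_cancel₀ hN, one_smul]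
  have htk : t ∈ κ.ker := MonoidHom.mem_ker.mpr ht
  refine ⟨n, ?_, ?_, ?_⟩
  · intro k
    have hc : C k - cob (tw (κ ^ (k : ℕ)) σ) (n k) ∈ Zc (tw (κ ^ (k : ℕ)) σ) :=
      Submodule.sub_mem _ (hCc k) (cob_mem _ _)
    have hv : ∀ γ ∈ κ.ker, (C k - cob (tw (κ ^ (k : ℕ)) σ) (n k)) γ = 0 := by
      intro γ hγ
      rw [Pi.sub_apply, hCk k γ hγ]
      simp only [cob]
      rw [tw_ker σ κ k hγ, sub_self]
    have hz : ∀ g, (C k - cob (tw (κ ^ (k : ℕ)) σ) (n k)) g = 0 := by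
      intro g
      apply hinv
      intro γ hγ
      have h1 := hc γ g
      rw [hv γ hγ, zero_add, tw_ker σ κ k hγ] at h1
      have h2 : g⁻¹ * γ * g ∈ κ.ker := by
        have := (inferInstance : κ.ker.Normal).conj_mem γ hγ g⁻¹
        rwa [inv_inv] at this
      have h3 := hc g (g⁻¹ * γ * g)
      rw [hv _ h2, map_zero, add_zero] at h3
      have h4 : g * (g⁻¹ * γ * g) = γ * g := by group
      rw [h4] at h3
      rw [← h1, h3]
    funext g
    exact sub_eq_zero.mp (hz g)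
  · intro k
    have h1 := hCk k t htk
    rw [(hC k).2] at h1
    exact (sub_eq_zero.mp h1.symm)
  · apply hinv
    intro γ hγ
    have h1 := h0 γ hγ
    rw [Finset.sum_congr rfl (fun k _ => hCk k γ hγ), Finset.sum_sub_distrib, ← map_sum] at h1
    exact sub_eq_zero.mp h1
end A9a

end Pool.Agent.Helper95.DFJ

end

section

/-!
# DFJ piece A9 (lower bound for the kernel)

Finite dimensionality: by A5 and A6 every element of `Zt` of the kernel is `∑ c'_j + cob m` with `c'_j ∈ Zt_j` and then `t m = m`; so `Zt` is contained in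
the sum of the restrictions of the `Zt_j` and of the (finite dimensional, A6 second part) space of coboundaries of sequences fixed by `t`.
Inequality: the linear map `∏_j Zt_j → Zt(kernel)`, `(C_j) ↦ ∑ C_j` restricted, has kernel contained (A9a) in the image of
`{m : Fin N → (sequences fixed by t), ∑ m_j = 0}`, of dimension at most `(N - 1) dim V`.
-/

namespace Pool.Agent.Helper95.DFJ

open Multiplicative Module

section A9aux
variable {F : Type*} [Field F] {M : Type*} [AddCommGroup M] [Module F M] {G : Type*} [Group G]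

/-- the coboundary as a linear map -/
def cobL9 (σ : Representation F G M) : M →ₗ[F] (G → M) where
  toFun := cob σ
  map_add' a b := by
    funext g
    simp only [cob, map_add, Pi.add_apply]
    abel
  map_smul' r a := by
    funext g
    simp only [cob, map_smul, Pi.smul_apply, smul_sub, RingHom.id_apply]

theorem cobL9_apply (σ : Representation F G M) (m : M) (g : G) : cobL9 σ m g = σ g m - m := rfl

theorem tw_ker9 (κ : G →* Fˣ) (σ : Representation F G M) (j : ℕ) (g : G) (hg : κ g = 1) (x : M) :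
    tw (κ ^ j) σ g x = σ g x := by
  rw [tw_apply, MonoidHom.pow_apply, hg, one_pow, Units.val_one, one_smul]

/-- restriction of a sum of twisted crossed homomorphisms to the kernel -/
theorem sum_mem9 (κ : G →* Fˣ) (σ : Representation F G M) (N : ℕ) (t : G) (hκt : t ∈ κ.ker)
    (C : Fin N → G → M) (hC : ∀ j : Fin N, C j ∈ Zt (tw (κ ^ (j : ℕ)) σ) t) :
    (fun g : κ.ker => ∑ j, C j (g : G)) ∈ Zt (resRep κ.ker σ) (⟨t, hκt⟩ : κ.ker) := by
  refine ⟨?_, ?_⟩
  · intro g h
    show ∑ j, C j ((g : G) * (h : G)) = ∑ j, C j (g : G) + σ (g : G) (∑ j, C j (h : G))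
    rw [map_sum, ← Finset.sum_add_distrib]
    refine Finset.sum_congr rfl fun j _ => ?_
    rw [(hC j).1 (g : G) (h : G), tw_ker9 κ σ j (g : G) (MonoidHom.mem_ker.1 g.2)]
  · show ∑ j, C j t = 0
    exact Finset.sum_eq_zero fun j _ => (hC j).2

end A9aux

section A9
variable {F : Type*} [Field F] {V : Type*} [AddCommGroup V] [Module F V] {G : Type*} [Group G]

/-- the lower bound for the kernel -/
theorem A9 (ρ : Representation F G V) [FiniteDimensional F V] (α : G →* Multiplicative ℤ) (t : G)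
    (ht : α t = ofAdd 1) (N : ℕ) [NeZero N] (hN : (N : F) ≠ 0) (ζ : Fˣ)
    (hζ : IsPrimitiveRoot ζ N) (κ : G →* Fˣ) (hκ : ∀ g, ∃ j : ℕ, κ g = ζ ^ j) (g₀ : G) (hg₀ : κ g₀ = ζ)
    (hκt : t ∈ κ.ker)
    (hfin : ∀ j : Fin N, FiniteDimensional F (Zt (seqRep (tw (κ ^ (j : ℕ)) ρ) α) t))
    (hinv : ∀ m : ℤ → V, (∀ g ∈ κ.ker, seqRep ρ α g m = m) → m = 0) :
    FiniteDimensional F (Zt (resRep κ.ker (seqRep ρ α)) (⟨t, hκt⟩ : κ.ker)) ∧
    ∑ j : Fin N, finrank F (Zt (seqRep (tw (κ ^ (j : ℕ)) ρ) α) t) ≤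
      finrank F (Zt (resRep κ.ker (seqRep ρ α)) (⟨t, hκt⟩ : κ.ker)) + (N - 1) * finrank F V := by
  classical
  have hκt1 : κ t = 1 := MonoidHom.mem_ker.1 hκt
  obtain ⟨φ, hφ0, hφt, hφu⟩ := A6' ρ α t ht (1 : G →* Fˣ)
  have htw1 : ∀ x : ℤ → V, tw (1 : G →* Fˣ) (seqRep ρ α) t x = seqRep ρ α t x := by
    intro x
    rw [tw_apply, MonoidHom.one_apply, Units.val_one, one_smul]
  simp only [htw1] at hφt hφu
  -- the sum map
  let Zj : Fin N → Submodule F (G → ℤ → V) := fun j => Zt (seqRep (tw (κ ^ (j : ℕ)) ρ) α) t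
  have hfin' : ∀ j : Fin N, FiniteDimensional F (Zj j) := hfin
  let Φ : (∀ j : Fin N, Zj j) →ₗ[F] (Zt (resRep κ.ker (seqRep ρ α)) (⟨t, hκt⟩ : κ.ker)) :=
    { toFun := fun C => ⟨fun g : κ.ker => ∑ j, (C j : G → ℤ → V) (g : G),
        sum_mem9 κ (seqRep ρ α) N t hκt (fun j => (C j : G → ℤ → V)) (fun j => (C j).2)⟩
      map_add' := fun C D => by
        apply Subtype.ext
        funext g
        show ∑ j, ((C j : G → ℤ → V) + (D j : G → ℤ → V)) (g : G) =
          ∑ j, (C j : G → ℤ → V) (g : G) + ∑ j, (D j : G → ℤ → V) (g : G)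
        rw [← Finset.sum_add_distrib]
        rfl
      map_smul' := fun r C => by
        apply Subtype.ext
        funext g
        show ∑ j, (r • (C j : G → ℤ → V)) (g : G) = r • ∑ j, (C j : G → ℤ → V) (g : G)
        rw [Finset.smul_sum]
        rfl }
  have hΦ : ∀ (C : ∀ j : Fin N, Zj j) (g : κ.ker),
      (Φ C : κ.ker → ℤ → V) g = ∑ j, (C j : G → ℤ → V) (g : G) := fun C g => rfl
  -- finite dimensionality
  have hfd : FiniteDimensional F (Zt (resRep κ.ker (seqRep ρ α)) (⟨t, hκt⟩ : κ.ker)) := by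
    let A : Submodule F (κ.ker → ℤ → V) := LinearMap.range
      ((Zt (resRep κ.ker (seqRep ρ α)) (⟨t, hκt⟩ : κ.ker)).subtype ∘ₗ Φ)
    let B : Submodule F (κ.ker → ℤ → V) := LinearMap.range
      (cobL9 (resRep κ.ker (seqRep ρ α)) ∘ₗ φ)
    have hA : FiniteDimensional F A := inferInstance
    have hB : FiniteDimensional F B := inferInstance
    have hAB : FiniteDimensional F (A ⊔ B : Submodule F (κ.ker → ℤ → V)) := inferInstance
    refine Submodule.finiteDimensional_of_le (S₂ := A ⊔ B) ?_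
    intro c hc
    obtain ⟨C, hC, hCs⟩ := A5 (seqRep ρ α) N hN ζ hζ κ hκ g₀ hg₀ c hc.1
    choose m hm using fun j : Fin N => A6 ρ α t ht (κ ^ (j : ℕ)) (C j t)
    have hc' : ∀ j : Fin N, C j - cob (tw (κ ^ (j : ℕ)) (seqRep ρ α)) (m j) ∈ Zj j := by
      intro j
      refine ⟨Submodule.sub_mem _ (hC j) (cob_mem _ _), ?_⟩
      rw [Pi.sub_apply]
      show C j t - (tw (κ ^ (j : ℕ)) (seqRep ρ α) t (m j) - m j) = 0
      rw [hm j, sub_self]
    have hcs : ∀ g : κ.ker, c g = (∑ j, (C j - cob (tw (κ ^ (j : ℕ)) (seqRep ρ α)) (m j)) (g : G)) +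
        (seqRep ρ α (g : G) (∑ j, m j) - ∑ j, m j) := by
      intro g
      rw [hCs g, map_sum, ← Finset.sum_sub_distrib, ← Finset.sum_add_distrib]
      refine Finset.sum_congr rfl fun j _ => ?_
      rw [Pi.sub_apply]
      show C j (g : G) = C j (g : G) - (tw (κ ^ (j : ℕ)) (seqRep ρ α) (g : G) (m j) - m j) + _
      rw [tw_ker9 κ (seqRep ρ α) j (g : G) (MonoidHom.mem_ker.1 g.2)]
      abel
    have hmt : seqRep ρ α t (∑ j, m j) = ∑ j, m j := by
      have h1 := hcs ⟨t, hκt⟩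
      rw [hc.2] at h1
      have h2 : ∑ j, (C j - cob (tw (κ ^ (j : ℕ)) (seqRep ρ α)) (m j)) (((⟨t, hκt⟩ : κ.ker) : G)) = 0 :=
        Finset.sum_eq_zero fun j _ => (hc' j).2
      rw [h2, zero_add] at h1
      exact (sub_eq_zero.1 h1.symm)
    rw [Submodule.mem_sup]
    refine ⟨_, ⟨fun j => ⟨_, hc' j⟩, rfl⟩, _, ⟨(∑ j, m j) 0, rfl⟩, ?_⟩
    funext g
    rw [hcs g]
    show _ + cobL9 (resRep κ.ker (seqRep ρ α)) (φ ((∑ j, m j) 0)) g = _
    rw [← hφu _ hmt]
    rfl
  refine ⟨hfd, ?_⟩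
  -- the kernel
  let Ψ : (Fin N → V) →ₗ[F] (∀ j : Fin N, Zj j) :=
    { toFun := fun v j => ⟨cob (tw (κ ^ (j : ℕ)) (seqRep ρ α)) (φ (v j)), cob_mem _ _, by
        show tw (κ ^ (j : ℕ)) (seqRep ρ α) t (φ (v j)) - φ (v j) = 0
        rw [tw_ker9 κ (seqRep ρ α) j t hκt1, hφt, sub_self]⟩
      map_add' := fun v w => by
        funext j
        apply Subtype.ext
        show cob _ (φ (v j + w j)) = cob _ (φ (v j)) + cob _ (φ (w j))
        rw [map_add]
        exact (cobL9 (tw (κ ^ (j : ℕ)) (seqRep ρ α))).map_add _ _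
      map_smul' := fun r v => by
        funext j
        apply Subtype.ext
        show cob _ (φ (r • v j)) = r • cob _ (φ (v j))
        rw [map_smul]
        exact (cobL9 (tw (κ ^ (j : ℕ)) (seqRep ρ α))).map_smul _ _ }
  let s : (Fin N → V) →ₗ[F] V := ∑ j : Fin N, LinearMap.proj j
  have hs : ∀ v, s v = ∑ j, v j := fun v => by
    simp only [s, LinearMap.sum_apply, LinearMap.proj_apply]
  have hsurj : LinearMap.range s = ⊤ := by
    rw [LinearMap.range_eq_top]
    intro x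
    refine ⟨Pi.single 0 x, ?_⟩
    rw [hs]
    rw [Finset.sum_pi_single' ]
    simp
  have hkers : finrank F (LinearMap.ker s) = (N - 1) * finrank F V := by
    have h1 := LinearMap.finrank_range_add_finrank_ker s
    rw [hsurj, finrank_top, Module.finrank_pi_fintype] at h1
    simp only [Finset.sum_const, Finset.card_univ, Fintype.card_fin, smul_eq_mul] at h1
    have h2 : 1 ≤ N := NeZero.one_le
    rw [Nat.sub_mul, one_mul]
    omega
  have hker : LinearMap.ker Φ ≤ (LinearMap.ker s).map Ψ := by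
    intro C hC
    rw [LinearMap.mem_ker] at hC
    obtain ⟨m, hm1, hm2, hm3⟩ := A9a (seqRep ρ α) N hN ζ hζ κ hκ g₀ hg₀ t hκt1 hinv
      (fun j => (C j : G → ℤ → V)) (fun j => (C j).2) (fun g hg => by
        have := congrArg (fun x : Zt (resRep κ.ker (seqRep ρ α)) (⟨t, hκt⟩ : κ.ker) =>
          (x : κ.ker → ℤ → V) ⟨g, hg⟩) hC
        exact this)
    refine ⟨fun j => m j 0, ?_, ?_⟩
    · show s _ = 0
      rw [hs]
      have := congrFun hm3 0
      rw [Finset.sum_apply] at this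
      exact this
    · funext j
      apply Subtype.ext
      show cob _ (φ (m j 0)) = _
      rw [← hφu _ (hm2 j)]
      exact (hm1 j).symm
  have h1 := LinearMap.finrank_range_add_finrank_ker Φ
  rw [Module.finrank_pi_fintype] at h1
  have h2 : finrank F (LinearMap.ker Φ) ≤ (N - 1) * finrank F V := by
    rw [← hkers]
    exact (Submodule.finrank_mono hker).trans (Submodule.finrank_map_le _ _)
  have h3 : finrank F (LinearMap.range Φ) ≤
      finrank F (Zt (resRep κ.ker (seqRep ρ α)) (⟨t, hκt⟩ : κ.ker)) := Submodule.finrank_le _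
  show ∑ j : Fin N, finrank F (Zj j) ≤ _
  rw [← h1]
  exact Nat.add_le_add h3 h2
end A9

end Pool.Agent.Helper95.DFJ

end
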