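import Pool.Agent.Helper95.DFJ.St.A3
import Pool.Agent.Helper95.DFJ.Wada

/-!
# DFJ: A10, L1a, L1
-/

section

/-!
# DFJ piece A10 (transport)

Along `e`: `c ↦ c ∘ e.symm`. Conjugation: if `g t₁ g⁻¹ = t'`, then `c ↦ (x ↦ σ g (c (g⁻¹ x g)))` maps `Zt σ t₁` onto `Zt σ t'`.
-/

namespace Pool.Agent.Helper95.DFJ

open Multiplicative Module

section A10
variable {F : Type*} [Field F] {V : Type*} [AddCommGroup V] [Module F V] {G H : Type*} [Group G] [Group H]

theorem A10_fwd_mem (e : G ≃* H) (σ : Representation F H V) (t : G) (g : H) (c : G → V)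
    (hc : c ∈ Zt (σ.comp e.toMonoidHom : Representation F G V) t) :
    (fun x : H => σ g (c (e.symm (g⁻¹ * x * g)))) ∈ Zt σ (g * e t * g⁻¹) := by
  refine ⟨fun x y => ?_, ?_⟩
  · show σ g (c (e.symm (g⁻¹ * (x * y) * g))) = σ g (c (e.symm (g⁻¹ * x * g))) +
      σ x (σ g (c (e.symm (g⁻¹ * y * g))))
    have h1 : g⁻¹ * (x * y) * g = (g⁻¹ * x * g) * (g⁻¹ * y * g) := by group
    have h2 : (σ.comp e.toMonoidHom : Representation F G V) (e.symm (g⁻¹ * x * g)) = σ (g⁻¹ * x * g) := by
      show σ (e (e.symm (g⁻¹ * x * g))) = σ (g⁻¹ * x * g)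
      rw [MulEquiv.apply_symm_apply]
    rw [h1, map_mul, hc.1 (e.symm (g⁻¹ * x * g)) (e.symm (g⁻¹ * y * g)), h2, map_add,
      ← Module.End.mul_apply, ← Module.End.mul_apply, ← map_mul, ← map_mul]
    congr 3
    group
  · show σ g (c (e.symm (g⁻¹ * (g * e t * g⁻¹) * g))) = 0
    have h1 : g⁻¹ * (g * e t * g⁻¹) * g = e t := by group
    rw [h1, MulEquiv.symm_apply_apply, hc.2, map_zero]

theorem A10_bwd_mem (e : G ≃* H) (σ : Representation F H V) (t : G) (g : H) (c : H → V)
    (hc : c ∈ Zt σ (g * e t * g⁻¹)) :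
    (fun x : G => σ g⁻¹ (c (g * e x * g⁻¹))) ∈ Zt (σ.comp e.toMonoidHom : Representation F G V) t := by
  refine ⟨fun x y => ?_, ?_⟩
  · show σ g⁻¹ (c (g * e (x * y) * g⁻¹)) = σ g⁻¹ (c (g * e x * g⁻¹)) +
      σ (e x) (σ g⁻¹ (c (g * e y * g⁻¹)))
    have h1 : g * e (x * y) * g⁻¹ = (g * e x * g⁻¹) * (g * e y * g⁻¹) := by rw [map_mul]; group
    rw [h1, hc.1, map_add, ← Module.End.mul_apply, ← Module.End.mul_apply, ← map_mul, ← map_mul]
    congr 3
    group
  · show σ g⁻¹ (c (g * e t * g⁻¹)) = 0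
    rw [hc.2, map_zero]

/-- transport along an isomorphism and a conjugation of the base element -/
theorem A10 (e : G ≃* H) (σ : Representation F H V) (t : G) (t' : H) (h : IsConj (e t) t') :
    Nonempty (Zt (σ.comp e.toMonoidHom : Representation F G V) t ≃ₗ[F] Zt σ t') := by
  obtain ⟨g, hg⟩ := isConj_iff.1 h
  subst hg
  refine ⟨{
    toFun := fun c => ⟨fun x : H => σ g (c.1 (e.symm (g⁻¹ * x * g))), A10_fwd_mem e σ t g c.1 c.2⟩
    map_add' := fun c d => by
      apply Subtype.ext; funext x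
      show σ g (c.1 _ + d.1 _) = σ g (c.1 _) + σ g (d.1 _)
      rw [map_add]
    map_smul' := fun r c => by
      apply Subtype.ext; funext x
      show σ g (r • c.1 _) = r • σ g (c.1 _)
      rw [map_smul]
    invFun := fun c => ⟨fun x : G => σ g⁻¹ (c.1 (g * e x * g⁻¹)), A10_bwd_mem e σ t g c.1 c.2⟩
    left_inv := fun c => by
      apply Subtype.ext; funext x
      show σ g⁻¹ (σ g (c.1 (e.symm (g⁻¹ * (g * e x * g⁻¹) * g)))) = c.1 x
      have h1 : g⁻¹ * (g * e x * g⁻¹) * g = e x := by group
      rw [h1, MulEquiv.symm_apply_apply, ← Module.End.mul_apply, ← map_mul, inv_mul_cancel, map_one,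
        Module.End.one_apply]
    right_inv := fun c => by
      apply Subtype.ext; funext x
      show σ g (σ g⁻¹ (c.1 (g * e (e.symm (g⁻¹ * x * g)) * g⁻¹))) = c.1 x
      have h1 : g * (g⁻¹ * x * g) * g⁻¹ = x := by group
      rw [MulEquiv.apply_symm_apply, h1, ← Module.End.mul_apply, ← map_mul, mul_inv_cancel, map_one,
        Module.End.one_apply] }⟩
end A10

end Pool.Agent.Helper95.DFJ

end

section

/-!
# DFJ piece L1a (a band acts on the labels and on the partial products)

`labels (bandWord (s,t,e)) x`: the letters `(t-1,true), …, (s+1,true)` move the strand `t` to the place `s+1`, with label `D x_t D⁻¹`,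
`D = x_{s+1} ⋯ x_{t-1}`, the strands between move one place to the right with the same labels; then `(s, e)`; then everything moves back.
-/

namespace Pool.Agent.Helper95.DFJ

open Multiplicative Module

section L1a
variable {H : Type*} [Group H]

/-- product of the labels strictly between `s` and `t` -/
def bandD (x : ℕ → H) (s t : ℕ) : H := ((List.range (t - s - 1)).map fun k => x (s + 1 + k)).prod

theorem bandD_succ (x : ℕ → H) (s t : ℕ) (h : s < t) : bandD x s (t + 1) = bandD x s t * x t := by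
  have h1 : t + 1 - s - 1 = (t - s - 1) + 1 := by omega
  have h2 : s + 1 + (t - s - 1) = t := by omega
  simp only [bandD, h1, List.range_succ, List.map_append, List.map_cons, List.map_nil,
    List.prod_append, List.prod_cons, List.prod_nil, mul_one, h2]

theorem bandD_self_succ (x : ℕ → H) (s : ℕ) : bandD x s (s + 1) = 1 := by
  simp [bandD]

theorem bandD_congr (x y : ℕ → H) (s t : ℕ) (h : ∀ i, s < i → i < t → x i = y i) :
    bandD x s t = bandD y s t := by
  unfold bandD
  congr 1
  refine List.map_congr_left fun k hk => ?_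
  rw [List.mem_range] at hk
  exact h _ (by omega) (by omega)

theorem bandWord_succ (s t : ℕ) (e : Bool) (h : s < t) :
    bandWord (s, t + 1, e) = (t, true) :: (bandWord (s, t, e) ++ [(t, false)]) := by
  have h1 : t + 1 - s - 1 = (t - s - 1) + 1 := by omega
  have h2 : s + 1 + (t - s - 1) = t := by omega
  have h3 : ((List.range (t - s - 1 + 1)).map fun k => ((t + 1 - 1 - k, true) : Letter)) =
      (t, true) :: (List.range (t - s - 1)).map fun k => ((t - 1 - k, true) : Letter) := by
    rw [List.range_succ_eq_map, List.map_cons, List.map_map]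
    refine congrArg₂ List.cons rfl (List.map_congr_left fun k _ => ?_)
    have h4 : t + 1 - 1 - (k + 1) = t - 1 - k := by omega
    exact congrArg (fun m => ((m, true) : Letter)) h4
  have h5 : ((List.range (t - s - 1 + 1)).map fun k => ((s + 1 + k, false) : Letter)) =
      ((List.range (t - s - 1)).map fun k => ((s + 1 + k, false) : Letter)) ++ [(t, false)] := by
    rw [List.range_succ, List.map_append, List.map_cons, List.map_nil, h2]
  change ((List.range (t + 1 - s - 1)).map fun k => ((t + 1 - 1 - k, true) : Letter)) ++ [(s, e)] ++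
    ((List.range (t + 1 - s - 1)).map fun k => ((s + 1 + k, false) : Letter)) = _
  rw [h1, h3, h5]
  change _ = (t, true) :: ((((List.range (t - s - 1)).map fun k => ((t - 1 - k, true) : Letter)) ++
    [(s, e)] ++ ((List.range (t - s - 1)).map fun k => ((s + 1 + k, false) : Letter))) ++
      [(t, false)])
  rw [List.cons_append, List.cons_append, ← List.append_assoc]

theorem labels_cons (l : Letter) (w : List Letter) (x : ℕ → H) :
    labels (l :: w) x = labels w (crossing l x) := rfl

theorem labels_append (w w' : List Letter) (x : ℕ → H) :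
    labels (w ++ w') x = labels w' (labels w x) := by
  unfold labels
  rw [List.foldl_append]

theorem crossing_true (i : ℕ) (x : ℕ → H) (j : ℕ) :
    crossing (i, true) x j = if j = i + 1 then x i else if j = i then x i * x (i + 1) * (x i)⁻¹
      else x j := by
  simp only [crossing, if_true, Function.update_apply]

theorem crossing_false (i : ℕ) (x : ℕ → H) (j : ℕ) :
    crossing (i, false) x j = if j = i + 1 then (x (i + 1))⁻¹ * x i * x (i + 1) else
      if j = i then x (i + 1) else x j := by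
  simp only [crossing, Bool.false_eq_true, if_false, Function.update_apply]

theorem L1a_aux (s n : ℕ) (e : Bool) (x : ℕ → H) (j : ℕ) :
    labels (bandWord (s, s + 1 + n, e)) x j =
      if j = s + 1 + n then
        (if e then (bandD x s (s + 1 + n))⁻¹ * x s * bandD x s (s + 1 + n)
          else (x (s + 1 + n))⁻¹ * (bandD x s (s + 1 + n))⁻¹ * x s * bandD x s (s + 1 + n) *
            x (s + 1 + n))
      else if j = s then
        (if e then x s * bandD x s (s + 1 + n) * x (s + 1 + n) * (bandD x s (s + 1 + n))⁻¹ *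
          (x s)⁻¹ else bandD x s (s + 1 + n) * x (s + 1 + n) * (bandD x s (s + 1 + n))⁻¹)
      else x j := by
  induction n generalizing x j with
  | zero =>
    have hw : bandWord (s, s + 1 + 0, e) = [(s, e)] := by
      simp [bandWord]
    rw [hw, labels_cons]
    change crossing (s, e) x j = _
    rw [Nat.add_zero, bandD_self_succ]
    cases e
    · rw [crossing_false]
      simp
    · rw [crossing_true]
      simp
  | succ n ih =>
    have ht : s < s + 1 + n := by omega
    have e1 : s + 1 + (n + 1) = s + 1 + n + 1 := rfl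
    rw [e1, bandWord_succ s (s + 1 + n) e ht, labels_cons, labels_append]
    generalize htt : s + 1 + n = t at *
    change crossing (t, false) (labels (bandWord (s, t, e)) (crossing (t, true) x)) j = _
    have hD : bandD (crossing (t, true) x) s t = bandD x s t := by
      refine bandD_congr _ _ _ _ fun i h1 h2 => ?_
      rw [crossing_true, if_neg (by omega), if_neg (by omega)]
    have hs : crossing (t, true) x s = x s := by
      rw [crossing_true, if_neg (by omega), if_neg (by omega)]
    have htx : crossing (t, true) x t = x t * x (t + 1) * (x t)⁻¹ := by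
      rw [crossing_true, if_neg (by omega), if_pos rfl]
    have htx1 : crossing (t, true) x (t + 1) = x t := by
      rw [crossing_true, if_pos rfl]
    have hne : t + 1 ≠ t := by omega
    have hne' : t + 1 ≠ s := by omega
    have hne'' : s ≠ t := by omega
    have hz1 : labels (bandWord (s, t, e)) (crossing (t, true) x) (t + 1) = x t := by
      rw [ih, if_neg hne, if_neg hne', htx1]
    have hzt : labels (bandWord (s, t, e)) (crossing (t, true) x) t =
        if e then (bandD x s t)⁻¹ * x s * bandD x s t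
          else (x t * x (t + 1) * (x t)⁻¹)⁻¹ * (bandD x s t)⁻¹ * x s * bandD x s t *
            (x t * x (t + 1) * (x t)⁻¹) := by
      rw [ih, if_pos rfl, hD, hs, htx]
    have hzs : labels (bandWord (s, t, e)) (crossing (t, true) x) s =
        if e then x s * bandD x s t * (x t * x (t + 1) * (x t)⁻¹) * (bandD x s t)⁻¹ * (x s)⁻¹
          else bandD x s t * (x t * x (t + 1) * (x t)⁻¹) * (bandD x s t)⁻¹ := by
      rw [ih, if_neg hne'', if_pos rfl, hD, hs, htx]
    rw [crossing_false, bandD_succ x s t ht, hz1, hzt]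
    by_cases h1 : j = t + 1
    · rw [if_pos h1, if_pos h1]
      cases e
      · simp only [Bool.false_eq_true, if_false]
        group
      · simp only [if_true]
        group
    · rw [if_neg h1, if_neg h1]
      by_cases h2 : j = t
      · rw [if_pos h2, if_neg (by omega), h2]
      · rw [if_neg h2]
        by_cases h3 : j = s
        · rw [if_pos h3, h3, hzs]
          cases e
          · simp only [Bool.false_eq_true, if_false]
            group
          · simp only [if_true]
            group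
        · rw [if_neg h3, ih, if_neg h2, if_neg h3, crossing_true, if_neg h1, if_neg h2]

theorem L1a (s t : ℕ) (e : Bool) (hst : s < t) (x : ℕ → H) :
    labels (bandWord (s, t, e)) x =
      Function.update (Function.update x s
        (if e then x s * bandD x s t * x t * (bandD x s t)⁻¹ * (x s)⁻¹ else bandD x s t * x t * (bandD x s t)⁻¹)) t
        (if e then (bandD x s t)⁻¹ * x s * bandD x s t
          else (x t)⁻¹ * (bandD x s t)⁻¹ * x s * bandD x s t * x t) := by
  obtain ⟨n, rfl⟩ : ∃ n, t = s + 1 + n := ⟨t - (s + 1), by omega⟩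
  funext j
  rw [L1a_aux, Function.update_apply, Function.update_apply]

/-- partial products -/
def PP (x : ℕ → H) (i : ℕ) : H := ((List.range i).map x).prod

theorem PP_succ (x : ℕ → H) (i : ℕ) : PP x (i + 1) = PP x i * x i := by
  simp [PP, List.range_succ]

theorem PP_mul_bandD (x : ℕ → H) (s n : ℕ) :
    PP x s * x s * bandD x s (s + 1 + n) = PP x (s + 1 + n) := by
  induction n with
  | zero => rw [Nat.add_zero, bandD_self_succ, mul_one, PP_succ]
  | succ n ih =>
    change PP x s * x s * bandD x s (s + 1 + n + 1) = PP x (s + 1 + n + 1)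
    rw [bandD_succ x s (s + 1 + n) (by omega), ← mul_assoc, ih, PP_succ]

/-- the loop of a band -/
def bandY (x : ℕ → H) (s t : ℕ) (e : Bool) : H :=
  if e then PP x (t + 1) * (PP x t)⁻¹ * PP x s * (PP x (s + 1))⁻¹
  else PP x s * (PP x (s + 1))⁻¹ * PP x (t + 1) * (PP x t)⁻¹

theorem L1b (s t : ℕ) (e : Bool) (hst : s < t) (x : ℕ → H) (i : ℕ) :
    PP (labels (bandWord (s, t, e)) x) i = if s < i ∧ i ≤ t then bandY x s t e * PP x i else PP x i := by
  have hD : bandD x s t = (PP x s * x s)⁻¹ * PP x t := by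
    obtain ⟨n, rfl⟩ : ∃ n, t = s + 1 + n := ⟨t - (s + 1), by omega⟩
    rw [← PP_mul_bandD x s n]
    group
  have key := L1a s t e hst x
  generalize labels (bandWord (s, t, e)) x = y at key
  have hy : ∀ j, y j = if j = t then
      (if e then (bandD x s t)⁻¹ * x s * bandD x s t
          else (x t)⁻¹ * (bandD x s t)⁻¹ * x s * bandD x s t * x t)
      else if j = s then
        (if e then x s * bandD x s t * x t * (bandD x s t)⁻¹ * (x s)⁻¹
          else bandD x s t * x t * (bandD x s t)⁻¹)
      else x j := by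
    intro j
    rw [key, Function.update_apply, Function.update_apply]
  rw [hD] at hy
  clear key hD
  induction i with
  | zero => rw [if_neg (by omega)]; rfl
  | succ i ih =>
    rw [PP_succ y, ih]
    rcases lt_trichotomy i s with h1 | h1 | h1
    · have h2 : y i = x i := by rw [hy, if_neg (by omega), if_neg (by omega)]
      rw [h2, if_neg (by omega), if_neg (by omega), PP_succ]
    · have h2 : y i = if e then x s * ((PP x s * x s)⁻¹ * PP x t) * x t *
          ((PP x s * x s)⁻¹ * PP x t)⁻¹ * (x s)⁻¹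
          else (PP x s * x s)⁻¹ * PP x t * x t * ((PP x s * x s)⁻¹ * PP x t)⁻¹ := by
        rw [hy, if_neg (by omega), if_pos h1]
      have h3 : ¬ (s < i ∧ i ≤ t) := by omega
      have h4 : s < i + 1 ∧ i + 1 ≤ t := by omega
      rw [h2, if_neg h3, if_pos h4, bandY, PP_succ, PP_succ, PP_succ, h1]
      cases e
      · simp only [Bool.false_eq_true, if_false]
        group
      · simp only [if_true]
        group
    · rcases lt_trichotomy i t with h2 | h2 | h2
      · have h3 : y i = x i := by rw [hy, if_neg (by omega), if_neg (by omega)]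
        have h4 : s < i ∧ i ≤ t := by omega
        have h5 : s < i + 1 ∧ i + 1 ≤ t := by omega
        rw [h3, if_pos h4, if_pos h5, PP_succ x i, mul_assoc]
      · have h3 : y i = if e then ((PP x s * x s)⁻¹ * PP x t)⁻¹ * x s *
            ((PP x s * x s)⁻¹ * PP x t) else (x t)⁻¹ * ((PP x s * x s)⁻¹ * PP x t)⁻¹ * x s *
              ((PP x s * x s)⁻¹ * PP x t) * x t := by
          rw [hy, if_pos h2]
        have h4 : s < i ∧ i ≤ t := by omega
        have h5 : ¬ (s < i + 1 ∧ i + 1 ≤ t) := by omega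
        rw [h3, if_pos h4, if_neg h5, bandY, PP_succ, PP_succ, PP_succ, h2]
        cases e
        · simp only [Bool.false_eq_true, if_false]
          group
        · simp only [if_true]
          group
      · have h3 : y i = x i := by rw [hy, if_neg (by omega), if_neg (by omega)]
        have h4 : ¬ (s < i ∧ i ≤ t) := by omega
        have h5 : ¬ (s < i + 1 ∧ i + 1 ≤ t) := by omega
        rw [h3, if_neg h4, if_neg h5, PP_succ]

/-- naturality -/
theorem labels_map {K : Type*} [Group K] (f : H →* K) (w : List Letter) (x : ℕ → H) (j : ℕ) :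
    f (labels w x j) = labels w (fun i => f (x i)) j := by
  induction w generalizing x with
  | nil => rfl
  | cons l w ih =>
    rw [labels_cons, labels_cons, ih]
    have h : (fun i => f (crossing l x i)) = crossing l (fun i => f (x i)) := by
      funext i
      rcases l with ⟨m, b⟩
      cases b
      · rw [crossing_false, crossing_false]
        split_ifs <;> simp
      · rw [crossing_true, crossing_true]
        split_ifs <;> simp
    rw [h]

end L1a

end Pool.Agent.Helper95.DFJ

end

section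

/-!
# DFJ piece L1 (a Seifert surface bounds the twisted homology of its boundary)

Notation: `x^(l)` the labels (in `S.Grp`, starting from the meridians) after the first `l` bands, `P^(l)_i = PP x^(l) i`, `T_i = P_{i+1} P_i⁻¹` at `l = 0`
(`i < n`, `T_0 = x_0`, `α T_i = 1`), `v^(l)_i = P^(l)_i (P^(0)_i)⁻¹` (`α v = 0`, `v_0 = v_n = 1`, `v^(0) = v^(k) = 1` by `closure_labels`). By L1b, for the band
`l = (s,t,e)`: `v^(l+1)_i = Y_l v^(l)_i` for `s < i ≤ t` and `v^(l+1)_i = v^(l)_i` otherwise, where (with `v = v^(l)`)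
`Y_l = v_{t+1} T_t v_t⁻¹ v_s T_s⁻¹ v_{s+1}⁻¹` if `e`, and `Y_l = v_s T_s⁻¹ v_{s+1}⁻¹ v_{t+1} T_t v_t⁻¹` if not `e`. Equivalently `T_s u_l = u'_l T_t` with
`u_l = v_s⁻¹ v_t`, `u'_l = v_{s+1}⁻¹ Y_l⁻¹ v_{t+1}` if `e`; `u_l = v_s⁻¹ Y_l v_t`, `u'_l = v_{s+1}⁻¹ v_{t+1}` if not `e`.
CUT LEMMA. Let `c ∈ Zt` (so `c T_0 = 0`) and `w : ℕ → V` with `w 0 = 0` and for every band `w_s - ρ(u'_l) w_t = ρ(T_s) (c(u_l)(-1))`. Then `c = 0`.
Proof: in `Equiv.Perm (ℤ → V)` (see `aff`) put `τ(v) = aff σ v (trunc 0 (c v))` for `α v = 1` (multiplicative there) and `T̃_i = aff σ T_i (trunc 0 (c T_i) + δ₀(w_i))`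
(`δ₀(w)`: the sequence with value `w` at `0`). The condition on `w` says exactly `T̃_s τ(u_l) = τ(u'_l) T̃_t` (use `σ(T_s) (trunc 0 f) = trunc 0 (σ(T_s) f) - δ₀(ρ(T_s) f(-1))`
and `c(T_s u) = c(u' T_t)`). Put `P̃_i = T̃_{i-1} ⋯ T̃_0`, `x̃_i = P̃_i⁻¹ P̃_{i+1}` for `i < n`, `x̃_i = 1` for `i ≥ n`. By induction on `l` (L1b applied to `x̃`), the partial products
after `l` bands are `τ(v^(l)_i) P̃_i` (for `i ≤ n`). So `labels word x̃ = x̃` and `closure_univ` gives a homomorphism `f` to `Perm`; `f x = aff σ x (c⁺ x)`,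
`c⁺ ∈ Zc`, `c⁺ x_0 = 0` (as `T_0 = x_0`, `c x_0 = 0`, `w_0 = 0`). `c⁺` is bounded below on the finitely many meridians, `c - c⁺` bounded above; A1 and A1' give `c⁺ = 0`, `c - c⁺ = 0`.
DIMENSIONS: the map `(c, w) ↦ (w_s - ρ(u'_l) w_t - ρ(T_s) (c(u_l)(-1)))_l`, from `Zt × {w : Fin n → V, w 0 = 0}` to `V^k`, is injective: if it vanishes then `c = 0` by the cut lemma, and then
`w_s = ρ(u'_l) w_t` for all bands, so `w = 0` by `surface_connected` (with `R i = (w_i = 0)`). Hence `dim Zt + (n - 1) dim V ≤ k dim V`.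
-/

namespace Pool.Agent.Helper95.DFJ

open Multiplicative Module

section L1
variable {F : Type} [Field F] {V : Type} [AddCommGroup V] [Module F V]

section Aux

private theorem labels_appendL {H : Type*} [Group H] (w w' : List Letter) (y : ℕ → H) :
    labels (w ++ w') y = labels w' (labels w y) := by
  simp only [labels, List.foldl_append]

/-- labels after the first `l` bands -/
private def lab {H : Type*} [Group H] (L : List Band) (y : ℕ → H) (l : ℕ) : ℕ → H :=
  labels ((L.take l).flatMap bandWord) y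

private theorem lab_zero {H : Type*} [Group H] (L : List Band) (y : ℕ → H) : lab L y 0 = y := by
  simp [lab, labels]

private theorem lab_succ {H : Type*} [Group H] (L : List Band) (y : ℕ → H) (l : ℕ)
    (h : l < L.length) : lab L y (l + 1) = labels (bandWord L[l]) (lab L y l) := by
  unfold lab
  rw [List.take_succ_eq_append_getElem h, List.flatMap_append, labels_appendL]
  simp

private theorem lab_length {H : Type*} [Group H] (L : List Band) (y : ℕ → H) :
    lab L y L.length = labels (L.flatMap bandWord) y := by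
  unfold lab; rw [List.take_length]

private theorem PP_zero {H : Type*} [Group H] (x : ℕ → H) : PP x 0 = 1 := by simp [PP]

private theorem PP_succL {H : Type*} [Group H] (x : ℕ → H) (i : ℕ) :
    PP x (i + 1) = PP x i * x i := by
  simp [PP, List.range_succ]

private theorem eq_PP {H : Type*} [Group H] (x : ℕ → H) (i : ℕ) :
    x i = (PP x i)⁻¹ * PP x (i + 1) := by
  rw [PP_succL, inv_mul_cancel_left]

private def gP (S : BandSurface) (i : ℕ) : S.Grp := PP (merL S.n S.word) i
private def gT (S : BandSurface) (i : ℕ) : S.Grp := gP S (i + 1) * (gP S i)⁻¹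
private def gp (S : BandSurface) (l i : ℕ) : S.Grp := PP (lab S.bands (merL S.n S.word) l) i
private def gv (S : BandSurface) (l i : ℕ) : S.Grp := gp S l i * (gP S i)⁻¹
private def gY (S : BandSurface) (b : Band) (l : ℕ) : S.Grp :=
  bandY (lab S.bands (merL S.n S.word) l) b.1 b.2.1 b.2.2
private def gu (S : BandSurface) (b : Band) (l : ℕ) : S.Grp :=
  if b.2.2 then (gv S l b.1)⁻¹ * gv S l b.2.1 else (gv S l b.1)⁻¹ * gY S b l * gv S l b.2.1
private def gu' (S : BandSurface) (b : Band) (l : ℕ) : S.Grp :=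
  if b.2.2 then (gv S l (b.1 + 1))⁻¹ * (gY S b l)⁻¹ * gv S l (b.2.1 + 1)
  else (gv S l (b.1 + 1))⁻¹ * gv S l (b.2.1 + 1)

private theorem gY_eq (S : BandSurface) (b : Band) (l : ℕ) : gY S b l =
    if b.2.2 then gp S l (b.2.1 + 1) * (gp S l b.2.1)⁻¹ * gp S l b.1 * (gp S l (b.1 + 1))⁻¹
    else gp S l b.1 * (gp S l (b.1 + 1))⁻¹ * gp S l (b.2.1 + 1) * (gp S l b.2.1)⁻¹ := rfl

private theorem gT_gu (S : BandSurface) (b : Band) (l : ℕ) :
    gT S b.1 * gu S b l = gu' S b l * gT S b.2.1 := by
  unfold gu gu' gT gv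
  rw [gY_eq]
  rcases b.2.2 with _ | _
  · simp only [Bool.false_eq_true, if_false]; group
  · simp only [if_true]; group

private theorem gv_zero (S : BandSurface) (i : ℕ) : gv S 0 i = 1 := by
  unfold gv gp gP
  rw [lab_zero, mul_inv_cancel]

private theorem gp_succ (S : BandSurface) (l i : ℕ) (h : l < S.bands.length) :
    gp S (l + 1) i = if (S.bands[l]).1 < i ∧ i ≤ (S.bands[l]).2.1 then gY S (S.bands[l]) l * gp S l i
      else gp S l i := by
  unfold gp
  rw [lab_succ _ _ _ h]
  exact L1b _ _ _ (S.valid _ (List.getElem_mem h)).1 _ i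

private theorem gv_succ (S : BandSurface) (l i : ℕ) (h : l < S.bands.length) :
    gv S (l + 1) i = if (S.bands[l]).1 < i ∧ i ≤ (S.bands[l]).2.1 then gY S (S.bands[l]) l * gv S l i
      else gv S l i := by
  unfold gv
  rw [gp_succ S l i h]
  split_ifs
  · rw [mul_assoc]
  · rfl

private theorem gv_length (S : BandSurface) (i : ℕ) : gv S S.bands.length i = 1 := by
  unfold gv gp gP
  rw [lab_length]
  have : labels (S.bands.flatMap bandWord) (merL S.n S.word) = merL S.n S.word :=
    closure_labels S.n S.word (surface_word_valid S)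
  rw [this, mul_inv_cancel]

private theorem gT_zero (S : BandSurface) (hn : 0 < S.n) : gT S 0 = mer S.n S.word ⟨0, hn⟩ := by
  unfold gT gP
  rw [PP_succL, PP_zero, one_mul, inv_one, mul_one]
  unfold merL
  rw [dif_pos hn]

private theorem gT_of_le (S : BandSurface) (i : ℕ) (h : S.n ≤ i) : gT S i = 1 := by
  unfold gT gP
  have : merL S.n S.word i = 1 := by unfold merL; rw [dif_neg (not_lt.2 h)]
  rw [PP_succL, this, mul_one, mul_inv_cancel]

private theorem α_gT (S : BandSurface) (α : S.Grp →* Multiplicative ℤ)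
    (hα : ∀ i, α (mer S.n S.word i) = ofAdd 1) (i : ℕ) (h : i < S.n) : α (gT S i) = ofAdd 1 := by
  unfold gT gP
  have : merL S.n S.word i = mer S.n S.word ⟨i, h⟩ := by unfold merL; rw [dif_pos h]
  rw [PP_succL, this, map_mul, map_mul, map_inv, hα]
  rw [mul_comm (α (PP _ i)), mul_inv_cancel_right]

private theorem α_gv (S : BandSurface) (α : S.Grp →* Multiplicative ℤ)
    (hα : ∀ i, α (mer S.n S.word i) = ofAdd 1) (l : ℕ) (hl : l ≤ S.bands.length) :
    ∀ i, α (gv S l i) = 1 := by
  induction l with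
  | zero => intro i; rw [gv_zero, map_one]
  | succ l ih =>
    intro i
    have h : l < S.bands.length := hl
    have ih := ih h.le
    rw [gv_succ S l i h]
    split_ifs with hc
    · rw [map_mul, ih, mul_one]
      obtain ⟨h1, h2⟩ := S.valid _ (List.getElem_mem h)
      have e1 := α_gT S α hα _ (h1.trans h2)
      have e2 := α_gT S α hα _ h2
      have key : ∀ j, α (gp S l j) = α (gP S j) := by
        intro j
        have := ih j
        unfold gv at this
        rw [map_mul, map_inv, mul_inv_eq_one] at this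
        exact this
      unfold gT at e1 e2
      rw [map_mul, map_inv] at e1 e2
      rw [gY_eq]
      split_ifs
      · rw [map_mul, map_mul, map_mul, map_inv, map_inv, key, key, key, key, e2]
        rw [mul_assoc, show α (gP S S.bands[l].1) * (α (gP S (S.bands[l].1 + 1)))⁻¹ =
          (ofAdd (1 : ℤ))⁻¹ by rw [← e1, mul_inv_rev, inv_inv], mul_inv_cancel]
      · rw [map_mul, map_mul, map_mul, map_inv, map_inv, key, key, key, key]
        rw [mul_assoc, e2, show α (gP S S.bands[l].1) * (α (gP S (S.bands[l].1 + 1)))⁻¹ =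
          (ofAdd (1 : ℤ))⁻¹ by rw [← e1, mul_inv_rev, inv_inv], inv_mul_cancel]
    · exact ih i

private theorem α_gY (S : BandSurface) (α : S.Grp →* Multiplicative ℤ)
    (hα : ∀ i, α (mer S.n S.word i) = ofAdd 1) (l : ℕ) (h : l < S.bands.length) :
    α (gY S S.bands[l] l) = 1 := by
  have h1 := α_gv S α hα (l + 1) h (S.bands[l].2.1)
  rw [gv_succ S l _ h, if_pos ⟨(S.valid _ (List.getElem_mem h)).1, le_rfl⟩, map_mul,
    α_gv S α hα l h.le, mul_one] at h1
  exact h1

end Aux

section Cut

variable (S : BandSurface) (ρ : Representation F S.Grp V) (α : S.Grp →* Multiplicative ℤ)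
  (c : S.Grp → ℤ → V) (w : ℕ → V)

private def tau (v : S.Grp) : Equiv.Perm (ℤ → V) := aff (seqRep ρ α) v (trunc F V 0 (c v))

open Classical in
private noncomputable def tT (i : ℕ) : Equiv.Perm (ℤ → V) :=
  if i < S.n then aff (seqRep ρ α) (gT S i) (trunc F V 0 (c (gT S i)) + Pi.single 0 (w i)) else 1

private noncomputable def tP : ℕ → Equiv.Perm (ℤ → V)
  | 0 => 1
  | (i + 1) => tT S ρ α c w i * tP i

private noncomputable def tx (i : ℕ) : Equiv.Perm (ℤ → V) :=
  (tP S ρ α c w i)⁻¹ * tP S ρ α c w (i + 1)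

private theorem PP_tx (i : ℕ) : PP (tx S ρ α c w) i = tP S ρ α c w i := by
  induction i with
  | zero => rw [PP_zero]; rfl
  | succ i ih => rw [PP_succL, ih, tx, mul_inv_cancel_left]

private theorem trunc_apply (f : ℤ → V) (i : ℤ) :
    trunc F V 0 f i = if 0 ≤ i then f i else 0 := rfl

private theorem trunc_seqRep (g : S.Grp) (hg : α g = 1) (f : ℤ → V) :
    seqRep ρ α g (trunc F V 0 f) = trunc F V 0 (seqRep ρ α g f) := by
  funext i
  rw [trunc_apply, seqRep_apply, seqRep_apply, hg, trunc_apply]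
  simp only [toAdd_one, sub_zero]
  split_ifs
  · rfl
  · rw [map_zero]

private theorem single_seqRep (g : S.Grp) (hg : α g = 1) (x : V) :
    seqRep ρ α g (Pi.single 0 x) = Pi.single 0 (ρ g x) := by
  funext i
  rw [seqRep_apply, hg]
  simp only [toAdd_one, sub_zero]
  by_cases h : i = 0
  · subst h; rw [Pi.single_eq_same, Pi.single_eq_same]
  · rw [Pi.single_eq_of_ne h, Pi.single_eq_of_ne h, map_zero]

private theorem trunc_seqRep_one (g : S.Grp) (hg : α g = ofAdd 1) (f : ℤ → V) :
    seqRep ρ α g (trunc F V 0 f) =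
      trunc F V 0 (seqRep ρ α g f) - Pi.single 0 (ρ g (f (-1))) := by
  funext i
  rw [Pi.sub_apply, trunc_apply, seqRep_apply, seqRep_apply, hg, trunc_apply]
  simp only [toAdd_ofAdd]
  by_cases h : i = 0
  · subst h; rw [Pi.single_eq_same]; simp
  · rw [Pi.single_eq_of_ne h, sub_zero]
    by_cases h0 : 0 ≤ i
    · rw [if_pos h0, if_pos (by omega)]
    · rw [if_neg h0, if_neg (by omega), map_zero]

variable {c} (hc : c ∈ Zc (seqRep ρ α))
include hc

private theorem tau_mul (v v' : S.Grp) (hv : α v = 1) :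
    tau S ρ α c (v * v') = tau S ρ α c v * tau S ρ α c v' := by
  unfold tau
  rw [aff_mul, hc v v', map_add, trunc_seqRep S ρ α v hv]

private theorem tau_one : tau S ρ α c 1 = 1 := by
  unfold tau
  rw [Zc_one hc, map_zero, aff_one]

private theorem tau_inv (v : S.Grp) (hv : α v = 1) : tau S ρ α c v⁻¹ = (tau S ρ α c v)⁻¹ := by
  rw [eq_inv_iff_mul_eq_one, ← tau_mul S ρ α hc _ _ (by rw [map_inv, hv, inv_one]), inv_mul_cancel,
    tau_one S ρ α hc]

private theorem tT_tau {s t : ℕ} (hs : s < S.n) (ht : t < S.n) {u u' : S.Grp}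
    (hu' : α u' = 1) (hTs : α (gT S s) = ofAdd 1)
    (hrel : gT S s * u = u' * gT S t) (hw : w s - ρ u' (w t) = ρ (gT S s) (c u (-1))) :
    tT S ρ α c w s * tau S ρ α c u = tau S ρ α c u' * tT S ρ α c w t := by
  unfold tT tau
  rw [if_pos hs, if_pos ht, aff_mul, aff_mul, hrel]
  congr 1
  rw [trunc_seqRep_one S ρ α _ hTs, map_add, trunc_seqRep S ρ α _ hu', single_seqRep S ρ α _ hu']
  have e1 : trunc F V 0 (c (gT S s)) + trunc F V 0 (seqRep ρ α (gT S s) (c u)) =
      trunc F V 0 (c u') + trunc F V 0 (seqRep ρ α u' (c (gT S t))) := by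
    rw [← map_add, ← map_add, ← hc, ← hc, hrel]
  have e2 : (Pi.single 0 (w s) : ℤ → V) =
      Pi.single 0 (ρ u' (w t)) + Pi.single 0 (ρ (gT S s) (c u (-1))) := by
    rw [← Pi.single_add, ← hw, add_sub_cancel]
  rw [e2]
  have e3 : trunc F V 0 (c (gT S s)) = trunc F V 0 (c u') +
      trunc F V 0 (seqRep ρ α u' (c (gT S t))) - trunc F V 0 (seqRep ρ α (gT S s) (c u)) := by
    rw [← e1, add_sub_cancel_right]
  rw [e3]
  abel

/-- the group of the pairs `(g, x ↦ g x + m)` with `m` equal to `0` near `-∞` and to `c g` near `∞` -/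
private def AA : Subgroup (S.Grp × Equiv.Perm (ℤ → V)) where
  carrier := {p | ∃ m : ℤ → V, p.2 = aff (seqRep ρ α) p.1 m ∧ (∃ k, ∀ j < k, m j = 0) ∧
    ∃ k, ∀ j, k ≤ j → m j = c p.1 j}
  mul_mem' := by
    rintro ⟨g, x⟩ ⟨h, y⟩ ⟨m, hm, ⟨k1, hk1⟩, ⟨k2, hk2⟩⟩ ⟨n, hn, ⟨l1, hl1⟩, ⟨l2, hl2⟩⟩
    simp only at hm hn hk2 hl2
    refine ⟨m + seqRep ρ α g n, ?_, ⟨min k1 (l1 + toAdd (α g)), ?_⟩,
      ⟨max k2 (l2 + toAdd (α g)), ?_⟩⟩
    · show x * y = aff (seqRep ρ α) (g * h) (m + seqRep ρ α g n)
      rw [hm, hn, aff_mul]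
    · intro j hj
      rw [Pi.add_apply, seqRep_apply, hk1 j (by omega), hl1 _ (by omega), map_zero, add_zero]
    · intro j hj
      show (m + seqRep ρ α g n) j = c (g * h) j
      rw [Pi.add_apply, seqRep_apply, hk2 j (by omega), hl2 _ (by omega), hc g h, Pi.add_apply,
        seqRep_apply]
  one_mem' := ⟨0, (aff_one _).symm, ⟨0, fun _ _ => rfl⟩, ⟨0, fun j _ => by
    show (0 : V) = c 1 j
    rw [Zc_one hc]; rfl⟩⟩
  inv_mem' := by
    rintro ⟨g, x⟩ ⟨m, hm, ⟨k1, hk1⟩, ⟨k2, hk2⟩⟩
    simp only at hm hk2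
    refine ⟨-(seqRep ρ α g⁻¹ m), ?_, ⟨k1 + toAdd (α g⁻¹), ?_⟩, ⟨k2 + toAdd (α g⁻¹), ?_⟩⟩
    · show x⁻¹ = aff (seqRep ρ α) g⁻¹ _
      rw [hm, aff_inv]
    · intro j hj
      rw [Pi.neg_apply, seqRep_apply, hk1 _ (by omega), map_zero, neg_zero]
    · intro j hj
      show (-(seqRep ρ α g⁻¹ m)) j = c g⁻¹ j
      rw [Pi.neg_apply, seqRep_apply, hk2 _ (by omega), Zc_inv hc g, Pi.neg_apply, seqRep_apply]

private theorem gT_tT_mem (i : ℕ) : (gT S i, tT S ρ α c w i) ∈ AA S ρ α hc := by
  by_cases h : i < S.n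
  · refine ⟨trunc F V 0 (c (gT S i)) + Pi.single 0 (w i), ?_, ⟨0, ?_⟩, ⟨1, ?_⟩⟩
    · show tT S ρ α c w i = _
      unfold tT; rw [if_pos h]
    · intro j hj
      rw [Pi.add_apply, trunc_apply, if_neg (by omega), Pi.single_eq_of_ne (by omega), add_zero]
    · intro j hj
      rw [Pi.add_apply, trunc_apply, if_pos (by omega), Pi.single_eq_of_ne (by omega), add_zero]
  · have h1 : tT S ρ α c w i = 1 := by unfold tT; rw [if_neg h]
    rw [h1, gT_of_le S i (not_lt.1 h)]
    exact one_mem (AA S ρ α hc)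

private theorem gP_tP_mem (i : ℕ) : (gP S i, tP S ρ α c w i) ∈ AA S ρ α hc := by
  induction i with
  | zero =>
    have : gP S 0 = 1 := PP_zero _
    rw [this]
    exact one_mem (AA S ρ α hc)
  | succ i ih =>
    have h := mul_mem (gT_tT_mem S ρ α w hc i) ih
    have e : gT S i * gP S i = gP S (i + 1) := by unfold gT; rw [inv_mul_cancel_right]
    rw [Prod.mk_mul_mk, e] at h
    exact h

private theorem merL_tx_mem (i : ℕ) :
    (merL S.n S.word i, tx S ρ α c w i) ∈ AA S ρ α hc := by
  have h := mul_mem (inv_mem (gP_tP_mem S ρ α w hc i)) (gP_tP_mem S ρ α w hc (i + 1))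
  have e : (gP S i)⁻¹ * gP S (i + 1) = merL S.n S.word i := (eq_PP _ i).symm
  rw [Prod.inv_mk, Prod.mk_mul_mk, e] at h
  exact h

private theorem band_tx (hα : ∀ i, α (mer S.n S.word i) = ofAdd 1)
    (hw : ∀ l (h : l < S.bands.length), w (S.bands[l]).1 - ρ (gu' S S.bands[l] l) (w (S.bands[l]).2.1)
      = ρ (gT S (S.bands[l]).1) (c (gu S S.bands[l] l) (-1)))
    (l : ℕ) (hl : l ≤ S.bands.length) : ∀ i, PP (lab S.bands (tx S ρ α c w) l) i =
      tau S ρ α c (gv S l i) * tP S ρ α c w i := by
  induction l with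
  | zero => intro i; rw [lab_zero, gv_zero, tau_one S ρ α hc, one_mul, PP_tx]
  | succ l ih =>
    intro i
    have h : l < S.bands.length := hl
    have ih := ih h.le
    have hw := hw l h
    have hY := α_gY S α hα l h
    have hv := α_gv S α hα l h.le
    obtain ⟨h1, h2⟩ := S.valid _ (List.getElem_mem h)
    rw [lab_succ _ _ _ h, gv_succ S l i h]
    have hL := L1b _ _ (S.bands[l]).2.2 h1 (lab S.bands (tx S ρ α c w) l) i
    have hb : bandY (lab S.bands (tx S ρ α c w) l) (S.bands[l]).1 (S.bands[l]).2.1 (S.bands[l]).2.2 =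
        tau S ρ α c (gY S S.bands[l] l) := by
      have hu' : α (gu' S S.bands[l] l) = 1 := by
        unfold gu'
        split_ifs
        · rw [map_mul, map_mul, map_inv, map_inv, hv, hv, hY]; simp
        · rw [map_mul, map_inv, hv, hv]; simp
      have key := tT_tau S ρ α w hc (h1.trans h2) h2 hu' (α_gT S α hα _ (h1.trans h2))
        (gT_gu S S.bands[l] l) hw
      have hT : ∀ j, tT S ρ α c w j = tP S ρ α c w (j + 1) * (tP S ρ α c w j)⁻¹ := by
        intro j
        show _ = tT S ρ α c w j * tP S ρ α c w j * _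
        rw [mul_inv_cancel_right]
      unfold bandY
      rw [ih, ih, ih, ih]
      rw [hT, hT] at key
      unfold gu gu' at key
      rcases hbe : (S.bands[l]).2.2 with _ | _
      · rw [hbe] at key
        simp only [Bool.false_eq_true, if_false] at key ⊢
        rw [tau_mul S ρ α hc _ _ (by rw [map_mul, map_inv, hv, hY]; simp),
          tau_mul S ρ α hc _ _ (by rw [map_inv, hv]; simp), tau_inv S ρ α hc _ (hv _),
          tau_mul S ρ α hc _ _ (by rw [map_inv, hv]; simp), tau_inv S ρ α hc _ (hv _)] at key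
        generalize tau S ρ α c (gY S S.bands[l] l) = Y at key ⊢
        generalize tau S ρ α c (gv S l S.bands[l].1) = a1 at key ⊢
        generalize tau S ρ α c (gv S l (S.bands[l].1 + 1)) = a2 at key ⊢
        generalize tau S ρ α c (gv S l S.bands[l].2.1) = a3 at key ⊢
        generalize tau S ρ α c (gv S l (S.bands[l].2.1 + 1)) = a4 at key ⊢
        generalize tP S ρ α c w S.bands[l].1 = b1 at key ⊢
        generalize tP S ρ α c w (S.bands[l].1 + 1) = b2 at key ⊢
        generalize tP S ρ α c w S.bands[l].2.1 = b3 at key ⊢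
        generalize tP S ρ α c w (S.bands[l].2.1 + 1) = b4 at key ⊢
        have : Y = a1 * (b2 * b1⁻¹)⁻¹ * (b2 * b1⁻¹ * (a1⁻¹ * Y * a3)) * a3⁻¹ := by group
        rw [this, key]
        group
      · rw [hbe] at key
        simp only [if_true] at key ⊢
        rw [tau_mul S ρ α hc _ _ (by rw [map_inv, hv]; simp), tau_inv S ρ α hc _ (hv _),
          tau_mul S ρ α hc _ _ (by rw [map_mul, map_inv, map_inv, hv, hY]; simp),
          tau_mul S ρ α hc _ _ (by rw [map_inv, hv]; simp), tau_inv S ρ α hc _ (hv _),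
          tau_inv S ρ α hc _ hY] at key
        generalize tau S ρ α c (gY S S.bands[l] l) = Y at key ⊢
        generalize tau S ρ α c (gv S l S.bands[l].1) = a1 at key ⊢
        generalize tau S ρ α c (gv S l (S.bands[l].1 + 1)) = a2 at key ⊢
        generalize tau S ρ α c (gv S l S.bands[l].2.1) = a3 at key ⊢
        generalize tau S ρ α c (gv S l (S.bands[l].2.1 + 1)) = a4 at key ⊢
        generalize tP S ρ α c w S.bands[l].1 = b1 at key ⊢
        generalize tP S ρ α c w (S.bands[l].1 + 1) = b2 at key ⊢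
        generalize tP S ρ α c w S.bands[l].2.1 = b3 at key ⊢
        generalize tP S ρ α c w (S.bands[l].2.1 + 1) = b4 at key ⊢
        have : Y = (a2 * (a2⁻¹ * Y⁻¹ * a4 * (b4 * b3⁻¹)) * (b4 * b3⁻¹)⁻¹ * a4⁻¹)⁻¹ := by group
        rw [this, ← key]
        group
    rw [show bandWord S.bands[l] = bandWord (S.bands[l].1, S.bands[l].2.1, S.bands[l].2.2) from rfl,
      hL, hb]
    split_ifs with hi
    · rw [ih, tau_mul S ρ α hc _ _ hY, mul_assoc]
    · exact ih i

/-- the cut lemma -/
private theorem cut (hn : 0 < S.n) (hα : ∀ i, α (mer S.n S.word i) = ofAdd 1)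
    [FiniteDimensional F (Zt (seqRep ρ α) (mer S.n S.word ⟨0, hn⟩))]
    (hc0 : c (mer S.n S.word ⟨0, hn⟩) = 0) (hw0 : w 0 = 0)
    (hw : ∀ l (h : l < S.bands.length), w (S.bands[l]).1 - ρ (gu' S S.bands[l] l) (w (S.bands[l]).2.1)
      = ρ (gT S (S.bands[l]).1) (c (gu S S.bands[l] l) (-1))) : c = 0 := by
  have h1 : labels S.word (tx S ρ α c w) = tx S ρ α c w := by
    have h2 : ∀ i, PP (labels S.word (tx S ρ α c w)) i = PP (tx S ρ α c w) i := by
      intro i
      have := band_tx S ρ α w hc hα hw S.bands.length le_rfl i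
      rw [lab_length, gv_length, tau_one S ρ α hc, one_mul] at this
      rw [PP_tx]
      exact this
    funext i
    rw [eq_PP (labels S.word (tx S ρ α c w)) i, h2, h2, ← eq_PP]
  have h3 : ∀ j, S.n ≤ j → tx S ρ α c w j = 1 := by
    intro j hj
    unfold tx
    show (tP S ρ α c w j)⁻¹ * (tT S ρ α c w j * tP S ρ α c w j) = 1
    have : tT S ρ α c w j = 1 := by unfold tT; rw [if_neg (not_lt.2 hj)]
    rw [this, one_mul, inv_mul_cancel]
  obtain ⟨f, hf⟩ := closure_univ S.n S.word (tx S ρ α c w) h3 h1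
  have hmem : ∀ x, (x, f x) ∈ AA S ρ α hc := by
    have : (AA S ρ α hc).comap ((MonoidHom.id S.Grp).prod f) = ⊤ := by
      rw [eq_top_iff, ← closure_gen S.n S.word, Subgroup.closure_le]
      rintro _ ⟨i, rfl⟩
      have := merL_tx_mem S ρ α w hc i
      have e : merL S.n S.word i = mer S.n S.word i := by unfold merL; rw [dif_pos i.2]
      rw [e, ← hf i] at this
      exact this
    intro x
    have hx : x ∈ (AA S ρ α hc).comap ((MonoidHom.id S.Grp).prod f) := by
      rw [this]; exact Subgroup.mem_top x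
    exact hx
  set d : S.Grp → ℤ → V := fun x => f x 0 with hd
  have hd1 : ∀ x, f x = aff (seqRep ρ α) x (d x) ∧ (∃ k, ∀ j < k, d x j = 0) ∧
      ∃ k, ∀ j, k ≤ j → d x j = c x j := by
    intro x
    obtain ⟨m, hm, h4, h5⟩ := hmem x
    have e : d x = m := by
      show f x 0 = m
      have hm' : f x = aff (seqRep ρ α) x m := hm
      rw [hm', aff_apply, map_zero, zero_add]
    rw [e]
    exact ⟨hm, h4, h5⟩
  have hdc : d ∈ Zc (seqRep ρ α) := by
    intro g h
    show f (g * h) 0 = f g 0 + seqRep ρ α g (f h 0)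
    rw [map_mul, Equiv.Perm.mul_apply]
    conv_lhs => rw [(hd1 g).1]
    rw [aff_apply, add_comm]
  have hd0 : d (mer S.n S.word ⟨0, hn⟩) = 0 := by
    show f (mer S.n S.word ⟨0, hn⟩) 0 = 0
    rw [hf ⟨0, hn⟩]
    show (tx S ρ α c w 0) 0 = 0
    have : tx S ρ α c w 0 = tT S ρ α c w 0 := by
      unfold tx
      show (1 : Equiv.Perm (ℤ → V))⁻¹ * (tT S ρ α c w 0 * 1) = _
      rw [inv_one, one_mul, mul_one]
    rw [this]
    unfold tT
    rw [if_pos hn, gT_zero S hn, hc0, hw0, aff_apply]
    simp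
  have hdt : d ∈ Zt (seqRep ρ α) (mer S.n S.word ⟨0, hn⟩) := ⟨hdc, hd0⟩
  have hct : c ∈ Zt (seqRep ρ α) (mer S.n S.word ⟨0, hn⟩) := ⟨hc, hc0⟩
  have hA : d = 0 := by
    choose k hk using fun i : Fin S.n => (hd1 (mer S.n S.word i)).2.1
    obtain ⟨k0, hk0⟩ := (Set.finite_range k).bddBelow
    refine A1 ρ α _ _ (closure_gen S.n S.word) d hdt k0 ?_
    rintro _ ⟨i, rfl⟩ j hj
    exact hk i j (lt_of_lt_of_le hj (hk0 ⟨i, rfl⟩))
  have hB : c - d = 0 := by
    choose k hk using fun i : Fin S.n => (hd1 (mer S.n S.word i)).2.2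
    obtain ⟨k0, hk0⟩ := (Set.finite_range k).bddAbove
    refine A1' ρ α _ _ (closure_gen S.n S.word) (c - d) (Submodule.sub_mem _ hct hdt) k0 ?_
    rintro _ ⟨i, rfl⟩ j hj
    rw [Pi.sub_apply, Pi.sub_apply, hk i j (le_trans (hk0 ⟨i, rfl⟩) hj), sub_self]
  rw [hA, sub_zero] at hB
  exact hB

end Cut

/-- a Seifert surface bounds the twisted homology of its boundary knot -/
theorem L1 (S : BandSurface) (hn : 0 < S.n) (hS : S.IsKnot) (ρ : Representation F S.Grp V)
    [FiniteDimensional F V] (α : S.Grp →* Multiplicative ℤ) (hα : ∀ i, α (mer S.n S.word i) = ofAdd 1)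
    [FiniteDimensional F (Zt (seqRep ρ α) (mer S.n S.word ⟨0, hn⟩))] :
    finrank F (Zt (seqRep ρ α) (mer S.n S.word ⟨0, hn⟩)) + S.n * finrank F V ≤
      (S.bands.length + 1) * finrank F V := by
  have hs : ∀ l : Fin S.bands.length, (S.bands[l.1]).1 < S.n := fun l =>
    (S.valid _ (List.getElem_mem l.2)).1.trans (S.valid _ (List.getElem_mem l.2)).2
  have ht : ∀ l : Fin S.bands.length, (S.bands[l.1]).2.1 < S.n := fun l =>
    (S.valid _ (List.getElem_mem l.2)).2
  let Ψ : (Zt (seqRep ρ α) (mer S.n S.word ⟨0, hn⟩)) × (Fin S.n → V) →ₗ[F]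
      (Fin S.bands.length → V) × V :=
    { toFun := fun p => (fun l => p.2 ⟨_, hs l⟩ - ρ (gu' S S.bands[l.1] l.1) (p.2 ⟨_, ht l⟩) -
        ρ (gT S (S.bands[l.1]).1) ((p.1 : S.Grp → ℤ → V) (gu S S.bands[l.1] l.1) (-1)),
        p.2 ⟨0, hn⟩)
      map_add' := by
        intro p q
        refine Prod.ext ?_ rfl
        funext l
        simp only [Prod.fst_add, Prod.snd_add, Pi.add_apply, Submodule.coe_add, map_add]
        abel
      map_smul' := by
        intro r p
        refine Prod.ext ?_ rfl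
        funext l
        simp only [Prod.smul_fst, Prod.smul_snd, Pi.smul_apply, Submodule.coe_smul, map_smul,
          RingHom.id_apply, smul_sub] }
  have hinj : Function.Injective Ψ := by
    rw [← LinearMap.ker_eq_bot, LinearMap.ker_eq_bot']
    rintro ⟨⟨c, hc, hc0⟩, w⟩ h
    have h1 : ∀ l : Fin S.bands.length, w ⟨_, hs l⟩ - ρ (gu' S S.bands[l.1] l.1) (w ⟨_, ht l⟩) -
        ρ (gT S (S.bands[l.1]).1) (c (gu S S.bands[l.1] l.1) (-1)) = 0 := fun l =>
      congrFun (congrArg Prod.fst h) l
    have h2 : w ⟨0, hn⟩ = 0 := congrArg Prod.snd h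
    have hcz : c = 0 := by
      refine cut S ρ α (fun i => if h : i < S.n then w ⟨i, h⟩ else 0) hc hn hα hc0 ?_ ?_
      · show (if h : 0 < S.n then w ⟨0, h⟩ else 0) = 0
        rw [dif_pos hn, h2]
      · intro l hl
        show (if h : (S.bands[l]).1 < S.n then w ⟨_, h⟩ else 0) -
          ρ (gu' S S.bands[l] l) (if h : (S.bands[l]).2.1 < S.n then w ⟨_, h⟩ else 0) = _
        rw [dif_pos (hs ⟨l, hl⟩), dif_pos (ht ⟨l, hl⟩)]
        exact sub_eq_zero.1 (h1 ⟨l, hl⟩)
    have hwz : ∀ i < S.n, ∀ h : i < S.n, w ⟨i, h⟩ = 0 := by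
      refine surface_connected S hS (fun i => ∀ h : i < S.n, w ⟨i, h⟩ = 0) (fun _ => h2) ?_
      intro b hb
      obtain ⟨l, hl, rfl⟩ := List.getElem_of_mem hb
      have h3 := h1 ⟨l, hl⟩
      subst hcz
      have h4 : w ⟨_, hs ⟨l, hl⟩⟩ = ρ (gu' S S.bands[l] l) (w ⟨_, ht ⟨l, hl⟩⟩) := by
        rw [Pi.zero_apply, Pi.zero_apply, map_zero, sub_zero] at h3
        exact sub_eq_zero.1 h3
      constructor
      · intro h5 h6
        have h7 := h5 (hs ⟨l, hl⟩)
        rw [h7] at h4
        have h8 : w ⟨_, h6⟩ = ρ (gu' S S.bands[l] l)⁻¹ (ρ (gu' S S.bands[l] l) (w ⟨_, h6⟩)) := by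
          rw [← Module.End.mul_apply, ← map_mul, inv_mul_cancel, map_one, Module.End.one_apply]
        rw [h8, ← h4, map_zero]
      · intro h5 h6
        rw [h4, h5 (ht ⟨l, hl⟩), map_zero]
    refine Prod.ext (Subtype.ext hcz) ?_
    funext i
    exact hwz i i.2 i.2
  have hle := LinearMap.finrank_le_finrank_of_injective hinj
  rw [Module.finrank_prod, Module.finrank_prod, Module.finrank_pi_fintype,
    Module.finrank_pi_fintype] at hle
  simp only [Finset.sum_const, Finset.card_univ, Fintype.card_fin, smul_eq_mul] at hle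
  rw [add_mul, one_mul]
  exact hle
end L1

end Pool.Agent.Helper95.DFJ

end
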